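import Mathlib

/-!
# AFH Cells: counting by cells

Let `S` be a set in `α`, `F i : α → ℝ` finitely many functions with `|F i x| ≤ B i` on `S`, `B i ≥ 1`, and `0 < ε ≤ 1`.
If for each `x ∈ S` at most `N` elements `y ∈ S` satisfy `|F i y - F i x| < ε` for all `i`, then
`S` is finite and `|S| ≤ N ∏ (4 B i / ε)`.
Proof: map `x` to `(⌊F i x / ε⌋)_i`, which is in the box `∏ [-⌊B i / ε⌋ - 1, ⌊B i / ε⌋]` with
`2 ⌊B i / ε⌋ + 2 ≤ 4 B i / ε` elements in each direction; two elements of the same fibre satisfy `|F i y - F i x| < ε`, so every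
fibre has at most `N` elements.
-/

set_option autoImplicit false

namespace Pool.Agent.H45.AFH

theorem cells {α ι : Type*} [Fintype ι] (S : Set α) (F : ι → α → ℝ) (B : ι → ℝ) (ε : ℝ) (N : ℕ)
    (hε : 0 < ε) (hε1 : ε ≤ 1) (hB : ∀ i, 1 ≤ B i) (hF : ∀ x ∈ S, ∀ i, |F i x| ≤ B i)
    (hN : ∀ x ∈ S, ({y | y ∈ S ∧ ∀ i, |F i y - F i x| < ε} : Set α).encard ≤ N) :
    S.Finite ∧ (S.ncard : ℝ) ≤ N * ∏ i, (4 * B i / ε) := by
  classical
  set φ : α → ι → ℤ := fun x i => ⌊F i x / ε⌋ with hφ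
  set box : Finset (ι → ℤ) := Fintype.piFinset fun i => Finset.Icc (-⌊B i / ε⌋ - 1) ⌊B i / ε⌋ with hbox
  have hBf : ∀ i, 1 ≤ ⌊B i / ε⌋ := by
    intro i
    apply Int.le_floor.mpr
    rw [Int.cast_one, le_div_iff₀ hε]
    have := hB i
    linarith
  have hmem : ∀ x ∈ S, φ x ∈ box := by
    intro x hx
    rw [hbox, Fintype.mem_piFinset]
    intro i
    rw [Finset.mem_Icc]
    have h := abs_le.mp (hF x hx i)
    constructor
    · show -⌊B i / ε⌋ - 1 ≤ ⌊F i x / ε⌋
      apply Int.le_floor.mpr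
      have h1 : B i / ε < (⌊B i / ε⌋ : ℝ) + 1 := Int.lt_floor_add_one _
      have h2 : -(B i / ε) ≤ F i x / ε := by
        rw [← neg_div]
        exact div_le_div_of_nonneg_right h.1 hε.le
      push_cast
      linarith
    · show ⌊F i x / ε⌋ ≤ ⌊B i / ε⌋
      exact Int.floor_le_floor (div_le_div_of_nonneg_right h.2 hε.le)
  have hfib : ∀ b, ({y | y ∈ S ∧ φ y = b} : Set α).encard ≤ N := by
    intro b
    by_cases hne : ({y | y ∈ S ∧ φ y = b} : Set α).Nonempty
    · obtain ⟨x, hxS, hxb⟩ := hne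
      refine le_trans (Set.encard_le_encard ?_) (hN x hxS)
      rintro y ⟨hyS, hyb⟩
      refine ⟨hyS, fun i => ?_⟩
      have h1 : ⌊F i y / ε⌋ = ⌊F i x / ε⌋ := by
        have : φ y i = φ x i := by rw [hyb, hxb]
        exact this
      have h2 := Int.abs_sub_lt_one_of_floor_eq_floor h1
      rw [← sub_div, abs_div, abs_of_pos hε, div_lt_one hε] at h2
      exact h2
    · rw [Set.not_nonempty_iff_eq_empty] at hne
      rw [hne]
      simp
  have hcov : S = ⋃ b ∈ box, {y | y ∈ S ∧ φ y = b} := by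
    ext x
    simp only [Set.mem_iUnion, Set.mem_ofPred_eq, exists_prop]
    constructor
    · intro hx
      exact ⟨φ x, hmem x hx, hx, rfl⟩
    · rintro ⟨b, _, hx, _⟩
      exact hx
  have hfin : S.Finite := by
    rw [hcov]
    refine Set.Finite.biUnion box.finite_toSet ?_
    intro b _
    apply Set.finite_of_encard_le_coe (hfib b)
  refine ⟨hfin, ?_⟩
  have hcard : S.ncard ≤ box.card * N := by
    rw [Set.ncard_eq_toFinset_card _ hfin]
    have : hfin.toFinset.card ≤ N * box.card := by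
      apply Finset.card_le_mul_card_image_of_maps_to (f := φ)
      · intro x hx
        rw [Set.Finite.mem_toFinset] at hx
        exact hmem x hx
      · intro b _
        have h := hfib b
        have h3 : (({x ∈ hfin.toFinset | φ x = b} : Finset α) : Set α) = {y | y ∈ S ∧ φ y = b} := by
          ext x
          simp
        rw [← h3, Set.encard_coe_eq_coe_finsetCard] at h
        exact_mod_cast h
    linarith [Nat.mul_comm N box.card]
  have hbc : (box.card : ℝ) ≤ ∏ i, (4 * B i / ε) := by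
    rw [hbox, Fintype.card_piFinset]
    push_cast
    apply Finset.prod_le_prod
    · intro i _
      exact Nat.cast_nonneg _
    · intro i _
      rw [Int.card_Icc]
      have h1 := hBf i
      have h2 : ((⌊B i / ε⌋ + 1 - (-⌊B i / ε⌋ - 1)).toNat : ℝ) = (2 * ⌊B i / ε⌋ + 2 : ℝ) := by
        have h3 : 0 ≤ ⌊B i / ε⌋ + 1 - (-⌊B i / ε⌋ - 1) := by linarith
        have h4 : (((⌊B i / ε⌋ + 1 - (-⌊B i / ε⌋ - 1)).toNat : ℤ) : ℝ) = ((⌊B i / ε⌋ + 1 - (-⌊B i / ε⌋ - 1) : ℤ) : ℝ) := by
          rw [Int.toNat_of_nonneg h3]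
        push_cast at h4
        rw [h4]
        ring
      rw [h2]
      have h5 : (⌊B i / ε⌋ : ℝ) ≤ B i / ε := Int.floor_le _
      have h6 : (1 : ℝ) ≤ B i / ε := by
        rw [le_div_iff₀ hε]
        linarith [hB i]
      rw [mul_div_assoc]
      linarith
  calc (S.ncard : ℝ) ≤ ((box.card * N : ℕ) : ℝ) := by exact_mod_cast hcard
    _ = N * box.card := by push_cast; ring
    _ ≤ N * ∏ i, (4 * B i / ε) := by
        apply mul_le_mul_of_nonneg_left hbc
        positivity

end Pool.Agent.H45.AFH
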