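import Pool.Agent.H45.AFH.Defs

/-!
# AFH Tors: units close to 1 at all infinite places are roots of unity

`sum_lg`: `∑ v, v.mult * lg v u = 0` (the product formula; e.g. `NumberField.Units.norm` is `± 1` and
`InfinitePlace.prod_eq_abs_norm`, or `NumberField.Units.sum_mult_mul_log` in Mathlib).
`tors_eps`: there is `ε > 0` such that a unit with `|lg v u| ≤ ε` for all `v` is a root of unity: only finitely many units satisfy
`v u ≤ 2` for all `v` (`NumberField.Embeddings.finite_of_norm_le`), and if `v u = 1` for all `v` then `u` is in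
`NumberField.Units.torsion K` (`NumberField.Units.mem_torsion`); take `ε ≤ log 2` smaller than all the
`max_v |lg v u| > 0` of the finitely many non-torsion units of this kind.
-/

set_option autoImplicit false

open NumberField Height

namespace Pool.Agent.H45.AFH

variable {K : Type*} [Field K] [NumberField K]

private theorem tors_fin (K : Type*) [Field K] [NumberField K] :
    {u : (𝓞 K)ˣ | ∀ v : InfinitePlace K, v ((u : 𝓞 K) : K) ≤ 2}.Finite := by
  refine Set.Finite.of_finite_image ?_ (Units.coe_injective K).injOn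
  refine (Embeddings.finite_of_norm_le K ℂ 2).subset ?_
  rintro a ⟨u, hu, rfl⟩
  refine ⟨(u : 𝓞 K).isIntegral_coe, fun φ => ?_⟩
  have h1 := hu (InfinitePlace.mk φ)
  rw [InfinitePlace.apply] at h1
  exact h1

private theorem tors_min {T : Set ℝ} (hT : T.Finite) (hpos : ∀ r ∈ T, 0 < r) :
    ∃ ε : ℝ, 0 < ε ∧ ∀ r ∈ T, ε < r := by
  rcases T.eq_empty_or_nonempty with h | h
  · subst h
    exact ⟨1, one_pos, fun r hr => absurd hr (Set.notMem_empty r)⟩
  · obtain ⟨m, hm, hmin⟩ := Set.exists_min_image T id hT h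
    have h1 := hpos m hm
    refine ⟨m / 2, by linarith, fun r hr => ?_⟩
    have h2 := hmin r hr
    simp only [id] at h2
    linarith

theorem lg_mul (v : InfinitePlace K) (u u' : (𝓞 K)ˣ) : lg v (u * u') = lg v u + lg v u' := by
  unfold lg
  have e : (((u * u' : (𝓞 K)ˣ) : 𝓞 K) : K) = ((u : 𝓞 K) : K) * ((u' : 𝓞 K) : K) := rfl
  rw [e, map_mul, Real.log_mul]
  · exact (Units.pos_at_place u v).ne'
  · exact (Units.pos_at_place u' v).ne'

theorem lg_inv (v : InfinitePlace K) (u : (𝓞 K)ˣ) : lg v u⁻¹ = -lg v u := by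
  have h1 := lg_mul v u⁻¹ u
  have h2 : lg v (1 : (𝓞 K)ˣ) = 0 := by
    unfold lg
    simp
  rw [inv_mul_cancel, h2] at h1
  linarith

theorem sum_lg (u : (𝓞 K)ˣ) : ∑ v : InfinitePlace K, (v.mult : ℝ) * lg v u = 0 := by
  exact Units.sum_mult_mul_log u

theorem tors_eps (K : Type*) [Field K] [NumberField K] :
    ∃ ε : ℝ, 0 < ε ∧ ∀ u : (𝓞 K)ˣ, (∀ v : InfinitePlace K, |lg v u| ≤ ε) → u ∈ Units.torsion K := by
  have hfin := tors_fin K
  have hT : {r : ℝ | ∃ u ∈ {u : (𝓞 K)ˣ | ∀ v : InfinitePlace K, v ((u : 𝓞 K) : K) ≤ 2},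
      ∃ v : InfinitePlace K, r = |lg v u| ∧ r ≠ 0}.Finite := by
    refine ((hfin.prod (Set.finite_univ (α := InfinitePlace K))).image
      (fun x => |lg x.2 x.1|)).subset ?_
    rintro r ⟨u, hu, v, hr, -⟩
    exact ⟨(u, v), ⟨hu, Set.mem_univ _⟩, hr.symm⟩
  obtain ⟨ε, hε, hlt⟩ := tors_min hT (by
    rintro r ⟨u, -, v, hr, hr0⟩
    rw [hr] at hr0 ⊢
    exact lt_of_le_of_ne (abs_nonneg _) hr0.symm)
  refine ⟨min ε (Real.log 2), lt_min hε (Real.log_pos one_lt_two), fun u hu => ?_⟩
  have hmem : ∀ v : InfinitePlace K, v ((u : 𝓞 K) : K) ≤ 2 := by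
    intro v
    have h1 := (hu v).trans (min_le_right _ _)
    have h2 := (le_abs_self _).trans h1
    exact (Real.log_le_log_iff (Units.pos_at_place u v) two_pos).1 h2
  rw [Units.mem_torsion]
  intro v
  have h3 : lg v u = 0 := by
    by_contra hne
    have h4 := hlt |lg v u| ⟨u, hmem, v, rfl, by simpa using hne⟩
    have h5 := (hu v).trans (min_le_left _ _)
    linarith
  exact Real.eq_one_of_pos_of_log_eq_zero (Units.pos_at_place u v) h3

end Pool.Agent.H45.AFH
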