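import Pool.Agent.H45.AFH.Cells
import Pool.Agent.H45.AFH.Tors

/-!
# AFH Cnt: the number of pairs of units

`r` = number of infinite places.  `count`: `SS K T A` is finite and has at most `C T ^ (r - 2) A ^ r` elements.

`SS K T A` is the union over the finitely many `φ : InfinitePlace K → Fin 3` which are not constant of the sets
`S φ = {(u, w) | |lg v u|, |lg v w| ≤ T, |fm (φ v) v u w| ≤ A for all v}`.
Fix `φ` and `v1, v2` with `φ v1 ≠ φ v2` (so `v1 ≠ v2`).  Apply `cells` with the functions `F` indexed by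
`InfinitePlace K ⊕ {v // v ≠ v1 ∧ v ≠ v2}`: `F (inl v) = fm (φ v) v`, bound `A`, and
`F (inr v) = lg v u` if `φ v = 0` and `lg v w` otherwise, bound `T`, with `ε` small
and `N = |torsion|²`.  So `|S φ| ≤ N (4 A / ε) ^ r (4 T / ε) ^ (r - 2)`.
Fibres (`fibre`): let `(u, w), (u', w')` be in the same fibre, `x v = lg v (u'/u)`, `y v = lg v (w'/w)` (differences, `lg_mul`,
`lg_inv`).  For `v ≠ v1, v2` the form `fm (φ v)` and the coordinate `F (inr v)` are `< ε` on the difference, so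
`|x v|, |y v| < 2 ε` (if `φ v = 0`: `y` and `x`; if `φ v = 1`: `x` and `y`; if `φ v = 2`: `x - y` and `y`).
As `∑ mult v * x v = 0` (`sum_lg`), and the same for `y`,
`|mult v1 * x v1 + mult v2 * x v2| ≤ 2 r * 2 ε` and `|mult v1 * y v1 + mult v2 * y v2| ≤ 4 r ε` (`1 ≤ mult ≤ 2`).
At `v1, v2` two different ones of the three forms `y, x, x - y` are `< ε`:
* `|y v1|, |x v2| < ε` (or exchanged): then `|x v1|, |y v2| ≤ 2 ε + 4 r ε`;
* `|y v1|, |x v2 - y v2| < ε` (or exchanged): `|y v2| ≤ (2 + 4 r) ε`, `|x v2| ≤ (3 + 4 r) ε`,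
  `|x v1| ≤ (6 + 12 r) ε`;
* `|x v1|, |x v2 - y v2| < ε` (or exchanged): the same.
So all `|x v|, |y v| ≤ 20 (r + 1) ε ≤ ε0` of `tors_eps`, and `u'/u, w'/w` are torsion; there are at most
`|torsion|²` pairs `(u', w')`.  (`Units.torsion K` is finite.)
-/

set_option autoImplicit false

open NumberField Height

namespace Pool.Agent.H45.AFH

variable {K : Type*} [Field K] [NumberField K]

private theorem cnt_step {m1 m2 a b e δ : ℝ} (h1 : 1 ≤ m1) (h1' : m1 ≤ 2) (h2 : 1 ≤ m2)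
    (hx : |m1 * a + m2 * b| ≤ δ) (ha : |a| ≤ e) : |b| ≤ δ + 2 * e := by
  have h3 : |m2 * b| ≤ δ + 2 * e := by
    have h4 : m2 * b = (m1 * a + m2 * b) - m1 * a := by ring
    rw [h4]
    refine (abs_sub _ _).trans ?_
    have h5 : |m1 * a| ≤ 2 * e := by
      rw [abs_mul, abs_of_nonneg (by linarith : (0 : ℝ) ≤ m1)]
      exact mul_le_mul h1' ha (abs_nonneg _) (by norm_num)
    linarith
  rw [abs_mul, abs_of_nonneg (by linarith : (0 : ℝ) ≤ m2)] at h3
  have h6 : |b| ≤ m2 * |b| := by nlinarith [abs_nonneg b]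
  linarith

private theorem cnt_tri {a b e f : ℝ} (h : |a - b| ≤ e) (hb : |b| ≤ f) : |a| ≤ e + f := by
  have h1 : a = (a - b) + b := by ring
  rw [h1]
  exact (abs_add_le _ _).trans (by linarith)

/-- the linear algebra at two places: `m1, m2 ∈ [1, 2]` the multiplicities, `f1 ≠ f2` the two forms -/
theorem two_forms {m1 m2 x1 x2 y1 y2 ε δ : ℝ} (h1 : 1 ≤ m1) (h1' : m1 ≤ 2) (h2 : 1 ≤ m2) (h2' : m2 ≤ 2)
    (hε : 0 ≤ ε) (hδ : 0 ≤ δ) (hx : |m1 * x1 + m2 * x2| ≤ δ) (hy : |m1 * y1 + m2 * y2| ≤ δ)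
    (i j : Fin 3) (hij : i ≠ j)
    (hi : |if i = 0 then y1 else if i = 1 then x1 else x1 - y1| ≤ ε)
    (hj : |if j = 0 then y2 else if j = 1 then x2 else x2 - y2| ≤ ε) :
    |x1| ≤ 10 * ε + 5 * δ ∧ |x2| ≤ 10 * ε + 5 * δ ∧ |y1| ≤ 10 * ε + 5 * δ ∧ |y2| ≤ 10 * ε + 5 * δ := by
  have hx' : |m2 * x2 + m1 * x1| ≤ δ := by rw [add_comm]; exact hx
  have hy' : |m2 * y2 + m1 * y1| ≤ δ := by rw [add_comm]; exact hy
  have hi0 : i = 0 ∨ i = 1 ∨ i = 2 := by fin_cases i <;> simp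
  have hj0 : j = 0 ∨ j = 1 ∨ j = 2 := by fin_cases j <;> simp
  rcases hi0 with rfl | rfl | rfl <;> rcases hj0 with rfl | rfl | rfl <;>
    simp at hi hj hij
  · -- y1, x2
    have a1 := cnt_step h1 h1' h2 hy hi
    have a2 := cnt_step h2 h2' h1 hx' hj
    exact ⟨by linarith, by linarith, by linarith, by linarith⟩
  · -- y1, x2 - y2
    have a1 := cnt_step h1 h1' h2 hy hi
    have a2 := cnt_tri hj a1
    have a3 := cnt_step h2 h2' h1 hx' a2
    exact ⟨by linarith, by linarith, by linarith, by linarith⟩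
  · -- x1, y2
    have a1 := cnt_step h1 h1' h2 hx hi
    have a2 := cnt_step h2 h2' h1 hy' hj
    exact ⟨by linarith, by linarith, by linarith, by linarith⟩
  · -- x1, x2 - y2
    have a1 := cnt_step h1 h1' h2 hx hi
    have hj' : |y2 - x2| ≤ ε := by rw [abs_sub_comm]; exact hj
    have a2 := cnt_tri hj' a1
    have a3 := cnt_step h2 h2' h1 hy' a2
    exact ⟨by linarith, by linarith, by linarith, by linarith⟩
  · -- x1 - y1, y2
    have a1 := cnt_step h2 h2' h1 hy' hj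
    have a2 := cnt_tri hi a1
    have a3 := cnt_step h1 h1' h2 hx a2
    exact ⟨by linarith, by linarith, by linarith, by linarith⟩
  · -- x1 - y1, x2
    have a1 := cnt_step h2 h2' h1 hx' hj
    have hi' : |y1 - x1| ≤ ε := by rw [abs_sub_comm]; exact hi
    have a2 := cnt_tri hi' a1
    have a3 := cnt_step h1 h1' h2 hy a2
    exact ⟨by linarith, by linarith, by linarith, by linarith⟩

private theorem cnt_fm_div (i : Fin 3) (v : InfinitePlace K) (u w u' w' : (𝓞 K)ˣ) :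
    fm i v (u' * u⁻¹) (w' * w⁻¹) = fm i v u' w' - fm i v u w := by
  unfold fm
  rw [lg_mul, lg_mul, lg_inv, lg_inv]
  split_ifs <;> ring

omit [NumberField K] in
private theorem cnt_mult (v : InfinitePlace K) : (1 : ℝ) ≤ (v.mult : ℝ) ∧ (v.mult : ℝ) ≤ 2 := by
  unfold InfinitePlace.mult
  split_ifs <;> norm_num

/-- the weighted sum over the places different from `v1, v2` -/
private theorem cnt_two (x : InfinitePlace K → ℝ) (ε : ℝ) (hε : 0 ≤ ε)
    (hs : ∑ v : InfinitePlace K, (v.mult : ℝ) * x v = 0)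
    (v1 v2 : InfinitePlace K) (h12 : v1 ≠ v2) (hx : ∀ v, v ≠ v1 → v ≠ v2 → |x v| ≤ ε) :
    |(v1.mult : ℝ) * x v1 + (v2.mult : ℝ) * x v2| ≤ 2 * Fintype.card (InfinitePlace K) * ε := by
  classical
  have h1 : ∑ v : InfinitePlace K, (v.mult : ℝ) * x v
      = (v1.mult : ℝ) * x v1 + ((v2.mult : ℝ) * x v2 +
        ∑ v ∈ (Finset.univ.erase v1).erase v2, (v.mult : ℝ) * x v) := by
    rw [← Finset.add_sum_erase Finset.univ _ (Finset.mem_univ v1),
      ← Finset.add_sum_erase (Finset.univ.erase v1) _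
        (Finset.mem_erase.2 ⟨h12.symm, Finset.mem_univ v2⟩)]
  have h2 : (v1.mult : ℝ) * x v1 + (v2.mult : ℝ) * x v2
      = - ∑ v ∈ (Finset.univ.erase v1).erase v2, (v.mult : ℝ) * x v := by linarith
  rw [h2, abs_neg]
  refine (Finset.abs_sum_le_sum_abs _ _).trans ?_
  have h3 : ∀ v ∈ (Finset.univ.erase v1).erase v2, |(v.mult : ℝ) * x v| ≤ 2 * ε := by
    intro v hv
    simp only [Finset.mem_erase, Finset.mem_univ, and_true] at hv
    have h4 := cnt_mult v
    rw [abs_mul, abs_of_nonneg (by linarith [h4.1] : (0 : ℝ) ≤ (v.mult : ℝ))]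
    exact mul_le_mul h4.2 (hx v hv.2 hv.1) (abs_nonneg _) (by norm_num)
  refine (Finset.sum_le_sum h3).trans ?_
  rw [Finset.sum_const, nsmul_eq_mul]
  have h5 : (((Finset.univ.erase v1).erase v2).card : ℝ) ≤ Fintype.card (InfinitePlace K) := by
    exact_mod_cast Finset.card_le_univ _
  nlinarith

/-- a pair of units for which all coordinates are small -/
private theorem cnt_small (φ : InfinitePlace K → Fin 3) (v1 v2 : InfinitePlace K) (hφ : φ v1 ≠ φ v2)
    (u w : (𝓞 K)ˣ) (ε : ℝ) (hε : 0 ≤ ε) (h1 : ∀ v, |fm (φ v) v u w| ≤ ε)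
    (h2 : ∀ v, v ≠ v1 → v ≠ v2 → |if φ v = 0 then lg v u else lg v w| ≤ ε) :
    ∀ v, |lg v u| ≤ (10 + 20 * Fintype.card (InfinitePlace K)) * ε ∧
      |lg v w| ≤ (10 + 20 * Fintype.card (InfinitePlace K)) * ε := by
  have h12 : v1 ≠ v2 := fun h => hφ (by rw [h])
  have h3 : ∀ v, v ≠ v1 → v ≠ v2 → |lg v u| ≤ 2 * ε ∧ |lg v w| ≤ 2 * ε := by
    intro v hv1 hv2
    have a1 := h1 v
    have a2 := h2 v hv1 hv2
    unfold fm at a1
    by_cases h0 : φ v = 0
    · rw [if_pos h0] at a1 a2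
      exact ⟨by linarith, by linarith⟩
    · rw [if_neg h0] at a1 a2
      by_cases h1' : φ v = 1
      · rw [if_pos h1'] at a1
        exact ⟨by linarith, by linarith⟩
      · rw [if_neg h1'] at a1
        have a3 := cnt_tri a1 a2
        exact ⟨by linarith, by linarith⟩
  have hu := cnt_two (fun v => lg v u) (2 * ε) (by linarith) (sum_lg u) v1 v2 h12
    (fun v a b => (h3 v a b).1)
  have hw := cnt_two (fun v => lg v w) (2 * ε) (by linarith) (sum_lg w) v1 v2 h12
    (fun v a b => (h3 v a b).2)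
  have hr : (0 : ℝ) ≤ Fintype.card (InfinitePlace K) := Nat.cast_nonneg _
  have hi := h1 v1
  have hj := h1 v2
  unfold fm at hi hj
  have h4 := two_forms (cnt_mult v1).1 (cnt_mult v1).2 (cnt_mult v2).1 (cnt_mult v2).2 hε
    (by positivity) hu hw (φ v1) (φ v2) hφ hi hj
  have h5 : 10 * ε + 5 * (2 * (Fintype.card (InfinitePlace K) : ℝ) * (2 * ε))
      = (10 + 20 * Fintype.card (InfinitePlace K)) * ε := by ring
  rw [h5] at h4
  intro v
  by_cases hv1 : v = v1
  · subst hv1; exact ⟨h4.1, h4.2.2.1⟩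
  · by_cases hv2 : v = v2
    · subst hv2; exact ⟨h4.2.1, h4.2.2.2⟩
    · have h6 := h3 v hv1 hv2
      have h7 : 2 * ε ≤ (10 + 20 * Fintype.card (InfinitePlace K)) * ε := by nlinarith
      exact ⟨h6.1.trans h7, h6.2.trans h7⟩

/-- the pairs of units for a fixed `φ` -/
private def cntS (K : Type*) [Field K] [NumberField K] (φ : InfinitePlace K → Fin 3) (T A : ℝ) :
    Set ((𝓞 K)ˣ × (𝓞 K)ˣ) :=
  {x | (∀ v : InfinitePlace K, |lg v x.1| ≤ T ∧ |lg v x.2| ≤ T) ∧ ∀ v, |fm (φ v) v x.1 x.2| ≤ A}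

private theorem cnt_card (v1 v2 : InfinitePlace K) (h12 : v1 ≠ v2)
    [Fintype {v : InfinitePlace K // v ≠ v1 ∧ v ≠ v2}] :
    Fintype.card {v : InfinitePlace K // v ≠ v1 ∧ v ≠ v2} = Fintype.card (InfinitePlace K) - 2 := by
  classical
  rw [Fintype.card_subtype]
  have h1 : (Finset.univ.filter fun v : InfinitePlace K => v ≠ v1 ∧ v ≠ v2)
      = (Finset.univ.erase v1).erase v2 := by
    ext v
    simp [and_comm]
  rw [h1, Finset.card_erase_of_mem (Finset.mem_erase.2 ⟨h12.symm, Finset.mem_univ v2⟩),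
    Finset.card_erase_of_mem (Finset.mem_univ v1), Finset.card_univ]
  omega

private theorem cnt_one (K : Type*) [Field K] [NumberField K] (ε : ℝ) (hε : 0 < ε) (hε1 : ε ≤ 1)
    (htor : ∀ u : (𝓞 K)ˣ, (∀ v : InfinitePlace K,
      |lg v u| ≤ (10 + 20 * Fintype.card (InfinitePlace K)) * ε) → u ∈ Units.torsion K)
    (φ : InfinitePlace K → Fin 3) (hφ : ∃ v v', φ v ≠ φ v') (T A : ℝ) (hT : 1 ≤ T) (hA : 1 ≤ A) :
    (cntS K φ T A).Finite ∧ ((cntS K φ T A).ncard : ℝ) ≤
      (((Nat.card (Units.torsion K × Units.torsion K) : ℕ) : ℝ) *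
        ((4 / ε) ^ Fintype.card (InfinitePlace K) * (4 / ε) ^ (Fintype.card (InfinitePlace K) - 2))) *
        T ^ (Fintype.card (InfinitePlace K) - 2) * A ^ Fintype.card (InfinitePlace K) := by
  classical
  obtain ⟨v1, v2, h12⟩ := hφ
  have hv : v1 ≠ v2 := fun h => h12 (by rw [h])
  let F : InfinitePlace K ⊕ {v : InfinitePlace K // v ≠ v1 ∧ v ≠ v2} → ((𝓞 K)ˣ × (𝓞 K)ˣ) → ℝ :=
    fun i x => Sum.elim (fun v => fm (φ v) v x.1 x.2)
      (fun v => if φ v.1 = 0 then lg v.1 x.1 else lg v.1 x.2) i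
  let B : InfinitePlace K ⊕ {v : InfinitePlace K // v ≠ v1 ∧ v ≠ v2} → ℝ :=
    fun i => Sum.elim (fun _ => A) (fun _ => T) i
  have hc := cells (cntS K φ T A) F B ε (Nat.card (Units.torsion K × Units.torsion K)) hε hε1
    (by
      rintro (v | v)
      · exact hA
      · exact hT)
    (by
      rintro x hx (v | v)
      · exact hx.2 v
      · change |if φ v.1 = 0 then lg v.1 x.1 else lg v.1 x.2| ≤ T
        split_ifs
        · exact (hx.1 v.1).1
        · exact (hx.1 v.1).2)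
    (by
      intro x _
      have hsub : ({y | y ∈ cntS K φ T A ∧ ∀ i, |F i y - F i x| < ε} : Set ((𝓞 K)ˣ × (𝓞 K)ˣ)) ⊆
          (fun p : Units.torsion K × Units.torsion K =>
            ((p.1 : (𝓞 K)ˣ) * x.1, (p.2 : (𝓞 K)ˣ) * x.2)) '' Set.univ := by
        rintro y ⟨_, hy⟩
        have h1 : ∀ v, |fm (φ v) v (y.1 * x.1⁻¹) (y.2 * x.2⁻¹)| ≤ ε := by
          intro v
          rw [cnt_fm_div]
          exact (hy (Sum.inl v)).le
        have h2 : ∀ v, v ≠ v1 → v ≠ v2 →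
            |if φ v = 0 then lg v (y.1 * x.1⁻¹) else lg v (y.2 * x.2⁻¹)| ≤ ε := by
          intro v a b
          have h3 := (hy (Sum.inr ⟨v, a, b⟩)).le
          change |(if φ v = 0 then lg v y.1 else lg v y.2) -
            (if φ v = 0 then lg v x.1 else lg v x.2)| ≤ ε at h3
          by_cases h0 : φ v = 0
          · rw [if_pos h0] at h3 ⊢
            rw [if_pos h0] at h3
            rw [lg_mul, lg_inv]
            exact h3
          · rw [if_neg h0] at h3 ⊢
            rw [if_neg h0] at h3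
            rw [lg_mul, lg_inv]
            exact h3
        have h4 := cnt_small φ v1 v2 h12 _ _ ε hε.le h1 h2
        refine ⟨(⟨_, htor _ fun v => (h4 v).1⟩, ⟨_, htor _ fun v => (h4 v).2⟩), Set.mem_univ _, ?_⟩
        ext <;> simp
      refine (Set.encard_le_encard hsub).trans ((Set.encard_image_le _ _).trans ?_)
      rw [Set.encard_univ, ENat.card_eq_coe_natCard])
  refine ⟨hc.1, hc.2.trans (le_of_eq ?_)⟩
  rw [Fintype.prod_sum_type]
  simp only [B, Sum.elim_inl, Sum.elim_inr, Finset.prod_const, Finset.card_univ]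
  rw [cnt_card v1 v2 hv]
  have e1 : 4 * A / ε = (4 / ε) * A := by ring
  have e2 : 4 * T / ε = (4 / ε) * T := by ring
  rw [e1, e2, mul_pow, mul_pow]
  ring

theorem count (K : Type*) [Field K] [NumberField K] :
    ∃ C : ℝ, 0 < C ∧ ∀ T A : ℝ, 1 ≤ T → 1 ≤ A → (SS K T A).Finite ∧
      ((SS K T A).ncard : ℝ) ≤ C * T ^ (Fintype.card (InfinitePlace K) - 2) *
        A ^ Fintype.card (InfinitePlace K) := by
  classical
  obtain ⟨ε0, hε0, htor⟩ := tors_eps K
  have hr : (0 : ℝ) ≤ Fintype.card (InfinitePlace K) := Nat.cast_nonneg _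
  obtain ⟨ε, hε, hε1, hεε⟩ : ∃ ε : ℝ, 0 < ε ∧ ε ≤ 1 ∧
      (10 + 20 * Fintype.card (InfinitePlace K)) * ε ≤ ε0 := by
    have hpos : (0 : ℝ) < 10 + 20 * Fintype.card (InfinitePlace K) := by linarith
    refine ⟨min 1 (ε0 / (10 + 20 * Fintype.card (InfinitePlace K))), by positivity,
      min_le_left _ _, ?_⟩
    calc (10 + 20 * (Fintype.card (InfinitePlace K) : ℝ)) *
          min 1 (ε0 / (10 + 20 * Fintype.card (InfinitePlace K)))
        ≤ (10 + 20 * Fintype.card (InfinitePlace K)) *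
          (ε0 / (10 + 20 * Fintype.card (InfinitePlace K))) :=
          mul_le_mul_of_nonneg_left (min_le_right _ _) hpos.le
      _ = ε0 := mul_div_cancel₀ _ hpos.ne'
  have htor' : ∀ u : (𝓞 K)ˣ, (∀ v : InfinitePlace K,
      |lg v u| ≤ (10 + 20 * Fintype.card (InfinitePlace K)) * ε) → u ∈ Units.torsion K :=
    fun u hu => htor u fun v => (hu v).trans hεε
  obtain ⟨D, hD⟩ : ∃ D : ℝ, D = ((Nat.card (Units.torsion K × Units.torsion K) : ℕ) : ℝ) *
        ((4 / ε) ^ Fintype.card (InfinitePlace K) *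
          (4 / ε) ^ (Fintype.card (InfinitePlace K) - 2)) := ⟨_, rfl⟩
  have hD0 : 0 < D := by
    rw [hD]
    have : 0 < Nat.card (Units.torsion K × Units.torsion K) := Nat.card_pos
    positivity
  refine ⟨(Fintype.card (InfinitePlace K → Fin 3) : ℝ) * D, ?_, ?_⟩
  · have : 0 < Fintype.card (InfinitePlace K → Fin 3) := Fintype.card_pos
    positivity
  intro T A hT hA
  let Φ : Finset (InfinitePlace K → Fin 3) := Finset.univ.filter fun φ => ∃ v v', φ v ≠ φ v'
  have hone : ∀ φ ∈ Φ, (cntS K φ T A).Finite ∧ ((cntS K φ T A).ncard : ℝ) ≤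
      D * T ^ (Fintype.card (InfinitePlace K) - 2) * A ^ Fintype.card (InfinitePlace K) := by
    intro φ hφ
    rw [hD]
    exact cnt_one K ε hε hε1 htor' φ (Finset.mem_filter.1 hφ).2 T A hT hA
  have hsub : SS K T A ⊆ ⋃ φ ∈ Φ, cntS K φ T A := by
    rintro x ⟨h1, φ, h2, h3⟩
    simp only [Set.mem_iUnion]
    exact ⟨φ, Finset.mem_filter.2 ⟨Finset.mem_univ _, h2⟩, h1, h3⟩
  have hfin : (⋃ φ ∈ Φ, cntS K φ T A).Finite :=
    Set.Finite.biUnion (Finset.finite_toSet Φ) fun φ hφ => (hone φ hφ).1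
  refine ⟨hfin.subset hsub, ?_⟩
  have h1 : (SS K T A).ncard ≤ ∑ φ ∈ Φ, (cntS K φ T A).ncard :=
    (Set.ncard_le_ncard hsub hfin).trans (Finset.set_ncard_biUnion_le Φ _)
  calc ((SS K T A).ncard : ℝ) ≤ ∑ φ ∈ Φ, ((cntS K φ T A).ncard : ℝ) := by exact_mod_cast h1
    _ ≤ ∑ φ ∈ Φ, D * T ^ (Fintype.card (InfinitePlace K) - 2) *
        A ^ Fintype.card (InfinitePlace K) := Finset.sum_le_sum fun φ hφ => (hone φ hφ).2
    _ = (Φ.card : ℝ) * (D * T ^ (Fintype.card (InfinitePlace K) - 2) *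
        A ^ Fintype.card (InfinitePlace K)) := by rw [Finset.sum_const, nsmul_eq_mul]
    _ ≤ (Fintype.card (InfinitePlace K → Fin 3) : ℝ) *
        (D * T ^ (Fintype.card (InfinitePlace K) - 2) *
        A ^ Fintype.card (InfinitePlace K)) := by
        refine mul_le_mul_of_nonneg_right ?_ (by positivity)
        exact_mod_cast Finset.card_le_univ _
    _ = (Fintype.card (InfinitePlace K → Fin 3) : ℝ) * D *
        T ^ (Fintype.card (InfinitePlace K) - 2) * A ^ Fintype.card (InfinitePlace K) := by ring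

end Pool.Agent.H45.AFH
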