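import Pool.Agent.H93.RankOne

/-!
# AFH (MP_ef6a16_nt, helper45): small Fermat points over number fields, for almost all prime exponents

`K` a number field, `d` its degree, `a ^ p + b ^ p + c ^ p = 0` with `abc ≠ 0` and `2 ^ p > 2 ^ d H(a : b : c)`.
By the dichotomy of `Pool.Agent.H93` the three sums differ by units: `a + b = (c + a) u`, `b + c = (c + a) w`.
`fm i v u w` is the logarithm of the ratio of the two sums different from the `i`-th one
(0 = `a + b`, 1 = `b + c`, 2 = `c + a`) at the infinite place `v`.
-/

set_option autoImplicit false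

open NumberField Height

namespace Pool.Agent.H45.AFH

variable {K : Type*} [Field K] [NumberField K]

/-- log of the absolute value of a unit at an infinite place -/
noncomputable def lg (v : InfinitePlace K) (u : (𝓞 K)ˣ) : ℝ := Real.log (v ((u : 𝓞 K) : K))

/-- the three linear forms -/
noncomputable def fm (i : Fin 3) (v : InfinitePlace K) (u w : (𝓞 K)ˣ) : ℝ :=
  if i = 0 then lg v w else if i = 1 then lg v u else lg v u - lg v w

/-- the pairs of units to be counted -/
def SS (K : Type*) [Field K] [NumberField K] (T A : ℝ) : Set ((𝓞 K)ˣ × (𝓞 K)ˣ) :=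
  {x | (∀ v : InfinitePlace K, |lg v x.1| ≤ T ∧ |lg v x.2| ≤ T) ∧
    ∃ φ : InfinitePlace K → Fin 3, (∃ v v', φ v ≠ φ v') ∧ ∀ v, |fm (φ v) v x.1 x.2| ≤ A}

end Pool.Agent.H45.AFH
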