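import Pool.Agent.H45.AFH.Main

/-!
# AFH Fin: the counting theorems
-/

set_option autoImplicit false

open NumberField Height

namespace Pool.Agent.H45.AFH

open Pool.Agent.H93

variable {K : Type*} [Field K] [NumberField K]

/-- reduction of a point of small height to a pair of units -/
theorem reduce (hω : ¬ ∃ ω : K, IsPrimitiveRoot ω 3) : ∃ B : ℕ, 17 ≤ B ∧ Module.finrank ℚ K ≤ B ∧
    ∀ p : ℕ, p.Prime → B < p → ∀ a b c : K, a ≠ 0 → b ≠ 0 → c ≠ 0 → a ^ p + b ^ p + c ^ p = 0 →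
      ∀ T X : ℝ, Real.log (mulHeight ![a, b, c]) ≤ T → (p : ℝ) ≤ X →
        T + Module.finrank ℚ K * Real.log 2 < p * Real.log 2 →
        c + a ≠ 0 ∧ (p : ℝ) ^ Module.finrank ℚ K ≤ 3 ^ Module.finrank ℚ K * mulHeight ![a, b, c] ∧
          ∃ u w : (𝓞 K)ˣ, (u, w) ∈ SS K (T + Module.finrank ℚ K * Real.log 2) (Real.log (10 * X)) ∧
            ![a, b, c] = ((c + a) / 2) • pt u w := by
  obtain ⟨B₀, hB₀⟩ := polynomial_bound hω
  refine ⟨B₀ + (discr K).natAbs + 2 * Module.finrank ℚ K + 17, by lia, by lia,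
    fun p hp hBp a b c ha hb hc h T X hT hX hTp ↦ ?_⟩
  have hdisc : ¬ (p : ℤ) ∣ discr K := by
    intro h3
    rw [Int.natCast_dvd] at h3
    have h4 : (discr K).natAbs ≠ 0 := Int.natAbs_ne_zero.mpr (discr_ne_zero K)
    have := Nat.le_of_dvd (Nat.pos_of_ne_zero h4) h3
    lia
  obtain ⟨hsum, hpoly⟩ := hB₀ p hp (by lia) a b c ha hb hc h
  have hodd : Odd p := hp.odd_of_ne_two (by lia)
  have hH : 0 < mulHeight ![a, b, c] := mulHeight_pos _
  rcases dichotomy hp (by lia) (by lia) ha hb hc h with h1 | h1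
  · exfalso
    have h2 := Real.log_le_log (by positivity) h1
    rw [Real.log_mul (by positivity) hH.ne', Real.log_pow, Real.log_pow] at h2
    linarith
  obtain ⟨v₀⟩ : Nonempty (FinitePlace K) := by
    obtain ⟨P, hP⟩ := Ideal.exists_maximal (𝓞 K)
    exact ⟨FinitePlace.mk ⟨P, hP.isPrime, Ring.ne_bot_of_isMaximal_of_not_isField hP
      (RingOfIntegers.not_isField K)⟩⟩
  have hm : 0 < lmax v₀ a b c := lmax_pos v₀ b c ha
  have g : UnitCase p a b c := by
    refine ⟨ha, hb, hc, h, hsum, ?_, ?_, ?_, ?_⟩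
    · rw [← FinitePlace.pos_iff (w := v₀), (h1 v₀).1]
      exact hm
    · rw [← FinitePlace.pos_iff (w := v₀), (h1 v₀).2.1]
      exact hm
    · rw [add_comm, ← FinitePlace.pos_iff (w := v₀), (h1 v₀).2.2]
      exact hm
    · intro v
      rw [add_comm a c]
      exact h1 v
  obtain ⟨u, w, hu, hw, hm⟩ := unit_pair hp hodd hdisc g hT hX
  refine ⟨?_, hpoly, u, w, hm, eq_smul_pt hu hw⟩
  rw [add_comm]
  exact g.hac

/-- the set of exceptional primes -/
def EP (K : Type*) [Field K] [NumberField K] (T X : ℝ) : Set ℕ :=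
  {p | p.Prime ∧ (p : ℝ) ≤ X ∧ ∃ a b c : K, a ≠ 0 ∧ b ≠ 0 ∧ c ≠ 0 ∧ a ^ p + b ^ p + c ^ p = 0 ∧
    Real.log (mulHeight ![a, b, c]) ≤ T}

/-- exponents of a fixed point -/
def PP (x : (𝓞 K)ˣ × (𝓞 K)ˣ) : Set ℕ :=
  {p | (∀ i, pt x.1 x.2 i ≠ 0) ∧ 17 ≤ p ∧ pt x.1 x.2 0 ^ p + pt x.1 x.2 1 ^ p + pt x.1 x.2 2 ^ p = 0 ∧
    (p : ℝ) ^ Module.finrank ℚ K ≤ 3 ^ Module.finrank ℚ K * mulHeight (pt x.1 x.2)}

theorem PP_encard (x : (𝓞 K)ˣ × (𝓞 K)ˣ) : (PP x).encard ≤ 3 := by
  by_cases hx : ∀ i, pt x.1 x.2 i ≠ 0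
  · refine le_trans (Set.encard_le_encard ?_) (three hx)
    rintro p ⟨-, hp⟩
    exact hp
  · have : PP x = ∅ := by
      ext p
      simp only [PP, Set.mem_ofPred_eq, Set.mem_empty_iff_false, iff_false]
      exact fun h ↦ hx h.1
    rw [this]
    simp

theorem nat_le_ncard (Y : ℝ) (hY : 0 ≤ Y) : ({p : ℕ | (p : ℝ) ≤ Y} : Set ℕ).Finite ∧
    ((({p : ℕ | (p : ℝ) ≤ Y} : Set ℕ).ncard : ℕ) : ℝ) ≤ Y + 1 := by
  have h1 : ({p : ℕ | (p : ℝ) ≤ Y} : Set ℕ) = ↑(Finset.range (⌊Y⌋₊ + 1)) := by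
    ext p
    simp only [Set.mem_ofPred_eq, Finset.coe_range, Set.mem_Iio]
    rw [Nat.lt_add_one_iff, Nat.le_floor_iff hY]
  rw [h1]
  refine ⟨Finset.finite_toSet _, ?_⟩
  rw [Set.ncard_coe_finset, Finset.card_range]
  push_cast
  have := Nat.floor_le hY
  linarith

theorem primes_count (hω : ¬ ∃ ω : K, IsPrimitiveRoot ω 3)
    (hr : 3 ≤ Fintype.card (InfinitePlace K)) :
    ∃ C : ℝ, 0 < C ∧ ∀ T X : ℝ, 1 ≤ T → 2 ≤ X → (EP K T X).Finite ∧
      ((EP K T X).ncard : ℝ) ≤ C * T ^ (Fintype.card (InfinitePlace K) - 2) *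
        Real.log X ^ Fintype.card (InfinitePlace K) := by
  classical
  obtain ⟨B, hB17, hBd, hB⟩ := reduce hω
  obtain ⟨C₀, hC₀, hcount⟩ := count K
  set d := Module.finrank ℚ K with hd
  set r := Fintype.card (InfinitePlace K) with hrdef
  refine ⟨(2 * B + 4) / Real.log 2 ^ r + 3 * (C₀ * (1 + d) ^ (r - 2) * 5 ^ r), by positivity,
    fun T X hT hX ↦ ?_⟩
  have hl2 : 0 < Real.log 2 := Real.log_pos (by norm_num)
  have hl2' : Real.log 2 ≤ 1 := by
    have := Real.log_two_lt_d9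
    linarith
  have hl2'' : 1 / 2 ≤ Real.log 2 := by
    have := Real.log_two_gt_d9
    linarith
  have hlX : Real.log 2 ≤ Real.log X := Real.log_le_log (by norm_num) hX
  have hfin : (EP K T X).Finite := by
    refine (nat_le_ncard X (by linarith)).1.subset ?_
    rintro p ⟨-, h, -⟩
    exact h
  refine ⟨hfin, ?_⟩
  set T' := T + d * Real.log 2 with hT'
  set A := Real.log (10 * X) with hA
  have hT'1 : 1 ≤ T' := by
    have : 0 ≤ (d : ℝ) * Real.log 2 := by positivity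
    linarith
  have hA5 : A ≤ 5 * Real.log X := by
    rw [hA, Real.log_mul (by norm_num) (by linarith)]
    have h10 : Real.log 10 ≤ 4 * Real.log 2 := by
      rw [← Real.log_rpow (by norm_num)]
      exact Real.log_le_log (by norm_num) (by norm_num)
    linarith
  have hA1 : 1 ≤ A := by
    rw [hA, Real.log_mul (by norm_num) (by linarith)]
    have h10 : 2 * Real.log 2 ≤ Real.log 10 := by
      rw [← Real.log_rpow (by norm_num)]
      exact Real.log_le_log (by norm_num) (by norm_num)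
    linarith
  obtain ⟨hSfin, hScard⟩ := hcount T' A hT'1 hA1
  set Y : ℝ := B + 2 * T with hY
  have hY0 : 0 ≤ Y := by positivity
  have hsub : EP K T X ⊆ {p : ℕ | (p : ℝ) ≤ Y} ∪ ⋃ x ∈ SS K T' A, PP x := by
    rintro p ⟨hp, hpX, a, b, c, ha, hb, hc, h, hH⟩
    by_cases hpY : (p : ℝ) ≤ Y
    · exact Or.inl hpY
    · right
      rw [not_le] at hpY
      have hBp : B < p := by
        have : (B : ℝ) < p := by
          refine lt_of_le_of_lt ?_ hpY
          rw [hY]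
          linarith
        exact_mod_cast this
      have hTp : T + d * Real.log 2 < p * Real.log 2 := by
        have h1 : Y * Real.log 2 < p * Real.log 2 := by gcongr
        have h2 : (d : ℝ) ≤ B := by exact_mod_cast hBd
        have h3 : (d : ℝ) * Real.log 2 ≤ B * Real.log 2 := by gcongr
        have h4 : T ≤ 2 * T * Real.log 2 := by nlinarith
        rw [hY] at h1
        linarith
      obtain ⟨hca, hpoly, u, w, hm, hpt⟩ := hB p hp hBp a b c ha hb hc h T X hH hpX hTp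
      rw [Set.mem_iUnion₂]
      refine ⟨(u, w), hm, ?_⟩
      have hsc : (c + a) / 2 ≠ 0 := div_ne_zero hca (by norm_num)
      have e0 : a = ((c + a) / 2) * pt u w 0 := congrFun hpt 0
      have e1 : b = ((c + a) / 2) * pt u w 1 := congrFun hpt 1
      have e2 : c = ((c + a) / 2) * pt u w 2 := congrFun hpt 2
      refine ⟨?_, by lia, ?_, ?_⟩
      · intro i h0
        fin_cases i
        · exact ha (by rw [e0]; simp only [Fin.zero_eta] at h0; rw [h0, mul_zero])
        · exact hb (by rw [e1]; simp only [Fin.mk_one] at h0; rw [h0, mul_zero])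
        · exact hc (by rw [e2]; simp only [Fin.reduceFinMk] at h0; rw [h0, mul_zero])
      · have h5 : ((c + a) / 2) ^ p * (pt u w 0 ^ p + pt u w 1 ^ p + pt u w 2 ^ p) = 0 := by
          rw [mul_add, mul_add, ← mul_pow, ← mul_pow, ← mul_pow, ← e0, ← e1, ← e2]
          exact h
        exact (mul_eq_zero.mp h5).resolve_left (pow_ne_zero p hsc)
      · rw [hpt, mulHeight_smul_eq_mulHeight _ hsc] at hpoly
        exact hpoly
  have hPfin : ∀ x : (𝓞 K)ˣ × (𝓞 K)ˣ, (PP x : Set ℕ).Finite := fun x ↦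
    Set.finite_of_encard_le_coe (k := 3) (PP_encard x)
  set F : Finset ℕ := hSfin.toFinset.biUnion (fun x ↦ (hPfin x).toFinset) with hF
  have hFcard : F.card ≤ hSfin.toFinset.card * 3 := by
    refine Finset.card_biUnion_le_card_mul _ _ _ fun x _ ↦ ?_
    rw [← Set.ncard_eq_toFinset_card _ (hPfin x)]
    have := PP_encard x
    rw [← (hPfin x).cast_ncard_eq] at this
    exact_mod_cast this
  have hsub2 : EP K T X ⊆ {p : ℕ | (p : ℝ) ≤ Y} ∪ ↑F := by
    refine hsub.trans (Set.union_subset_union_right _ ?_)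
    intro p hp
    rw [Set.mem_iUnion₂] at hp
    obtain ⟨x, hx, hpx⟩ := hp
    rw [hF, Finset.coe_biUnion, Set.mem_iUnion₂]
    exact ⟨x, by simpa using hx, by simpa using hpx⟩
  obtain ⟨hYfin, hYcard⟩ := nat_le_ncard Y hY0
  have h1 : ((EP K T X).ncard : ℝ) ≤ (Y + 1) + 3 * ((SS K T' A).ncard : ℝ) := by
    have h2 := Set.ncard_le_ncard hsub2 (hYfin.union (Finset.finite_toSet F))
    have h3 := Set.ncard_union_le {p : ℕ | (p : ℝ) ≤ Y} (↑F : Set ℕ)
    rw [Set.ncard_coe_finset] at h3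
    have h4 : hSfin.toFinset.card = (SS K T' A).ncard := (Set.ncard_eq_toFinset_card _ hSfin).symm
    rw [h4] at hFcard
    have h5 : ((EP K T X).ncard : ℝ) ≤ (({p : ℕ | (p : ℝ) ≤ Y} : Set ℕ).ncard : ℝ) + F.card := by
      exact_mod_cast h2.trans h3
    have h6 : (F.card : ℝ) ≤ ((SS K T' A).ncard : ℝ) * 3 := by exact_mod_cast hFcard
    linarith
  refine h1.trans ?_
  have hTr : T ≤ T ^ (r - 2) := by
    calc T = T ^ 1 := (pow_one T).symm
      _ ≤ T ^ (r - 2) := pow_le_pow_right₀ hT (by lia)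
  have hlXr : Real.log 2 ^ r ≤ Real.log X ^ r := by gcongr
  have hl2r : 0 < Real.log 2 ^ r := by positivity
  have hB0 : (0 : ℝ) ≤ B := by positivity
  have h7 : Y + 1 ≤ (2 * B + 4) / Real.log 2 ^ r * T ^ (r - 2) * Real.log X ^ r := by
    have h8 : Y + 1 ≤ (2 * B + 4) * T ^ (r - 2) := by
      rw [hY]
      nlinarith
    calc Y + 1 ≤ (2 * B + 4) * T ^ (r - 2) := h8
      _ = (2 * B + 4) / Real.log 2 ^ r * T ^ (r - 2) * Real.log 2 ^ r := by field_simp
      _ ≤ _ := by gcongr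
  have h9 : ((SS K T' A).ncard : ℝ) ≤ C₀ * (1 + d) ^ (r - 2) * 5 ^ r * T ^ (r - 2) *
      Real.log X ^ r := by
    refine hScard.trans ?_
    have h10 : T' ≤ (1 + d) * T := by
      rw [hT']
      have h11 : (d : ℝ) * Real.log 2 ≤ d * T := by
        gcongr
        linarith
      linarith
    calc C₀ * T' ^ (r - 2) * A ^ r ≤ C₀ * ((1 + d) * T) ^ (r - 2) * (5 * Real.log X) ^ r := by
          gcongr
      _ = _ := by rw [mul_pow, mul_pow]; ring
  calc Y + 1 + 3 * ((SS K T' A).ncard : ℝ) ≤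
      (2 * B + 4) / Real.log 2 ^ r * T ^ (r - 2) * Real.log X ^ r +
        3 * (C₀ * (1 + d) ^ (r - 2) * 5 ^ r * T ^ (r - 2) * Real.log X ^ r) := by
          linarith
    _ = _ := by ring

end Pool.Agent.H45.AFH
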