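import Pool.Agent.H45.AFH.Fin

/-!
# AFH Fin2: the number of points, and the bound for almost all primes
-/

set_option autoImplicit false

open NumberField Height

namespace Pool.Agent.H45.AFH

open Pool.Agent.H93

variable {K : Type*} [Field K] [NumberField K]

/-- affine Fermat points of small height with some large prime exponent -/
def PS (K : Type*) [Field K] [NumberField K] (B : ℕ) (T X : ℝ) : Set (K × K) :=
  {x | x.1 ≠ 0 ∧ x.2 ≠ 0 ∧ Real.log (mulHeight ![x.1, x.2, 1]) ≤ T ∧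
    ∃ p : ℕ, p.Prime ∧ (B : ℝ) + 2 * T < p ∧ (p : ℝ) ≤ X ∧ x.1 ^ p + x.2 ^ p + 1 = 0}

theorem points_count (hω : ¬ ∃ ω : K, IsPrimitiveRoot ω 3) :
    ∃ (B : ℕ) (C : ℝ), 0 < C ∧ ∀ T X : ℝ, 1 ≤ T → 2 ≤ X → (PS K B T X).Finite ∧
      ((PS K B T X).ncard : ℝ) ≤ C * T ^ (Fintype.card (InfinitePlace K) - 2) *
        Real.log X ^ Fintype.card (InfinitePlace K) := by
  classical
  obtain ⟨B, hB17, hBd, hB⟩ := reduce hω
  obtain ⟨C₀, hC₀, hcount⟩ := count K
  set d := Module.finrank ℚ K with hd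
  set r := Fintype.card (InfinitePlace K) with hrdef
  refine ⟨B, C₀ * (1 + d) ^ (r - 2) * 5 ^ r, by positivity, fun T X hT hX ↦ ?_⟩
  have hl2 : 0 < Real.log 2 := Real.log_pos (by norm_num)
  have hl2' : Real.log 2 ≤ 1 := by
    have := Real.log_two_lt_d9
    linarith
  have hl2'' : 1 / 2 ≤ Real.log 2 := by
    have := Real.log_two_gt_d9
    linarith
  have hlX : Real.log 2 ≤ Real.log X := Real.log_le_log (by norm_num) hX
  set T' := T + d * Real.log 2 with hT'
  set A := Real.log (10 * X) with hA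
  have hT'1 : 1 ≤ T' := by
    have : 0 ≤ (d : ℝ) * Real.log 2 := by positivity
    linarith
  have hA5 : A ≤ 5 * Real.log X := by
    rw [hA, Real.log_mul (by norm_num) (by linarith)]
    have h10 : Real.log 10 ≤ 4 * Real.log 2 := by
      rw [← Real.log_rpow (by norm_num)]
      exact Real.log_le_log (by norm_num) (by norm_num)
    linarith
  have hA1 : 1 ≤ A := by
    rw [hA, Real.log_mul (by norm_num) (by linarith)]
    have h10 : 2 * Real.log 2 ≤ Real.log 10 := by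
      rw [← Real.log_rpow (by norm_num)]
      exact Real.log_le_log (by norm_num) (by norm_num)
    linarith
  obtain ⟨hSfin, hScard⟩ := hcount T' A hT'1 hA1
  set f : (𝓞 K)ˣ × (𝓞 K)ˣ → K × K :=
    fun x ↦ (pt x.1 x.2 0 / pt x.1 x.2 2, pt x.1 x.2 1 / pt x.1 x.2 2) with hf
  have hsub : PS K B T X ⊆ f '' SS K T' A := by
    rintro ⟨a, b⟩ ⟨ha, hb, hH, p, hp, hpT, hpX, h⟩
    simp only at ha hb hH h
    have hBp : B < p := by
      have : (B : ℝ) < p := by linarith
      exact_mod_cast this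
    have hTp : T + d * Real.log 2 < p * Real.log 2 := by
      have h1 : ((B : ℝ) + 2 * T) * Real.log 2 < p * Real.log 2 := by gcongr
      have h2 : (d : ℝ) ≤ B := by exact_mod_cast hBd
      have h3 : (d : ℝ) * Real.log 2 ≤ B * Real.log 2 := by gcongr
      have h4 : T ≤ 2 * T * Real.log 2 := by nlinarith
      linarith
    obtain ⟨hca, hpoly, u, w, hm, hpt⟩ := hB p hp hBp a b 1 ha hb one_ne_zero
      (by rw [one_pow]; exact h) T X hH hpX hTp
    have hsc : ((1 : K) + a) / 2 ≠ 0 := div_ne_zero hca (by norm_num)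
    have e0 : a = ((1 + a) / 2) * pt u w 0 := congrFun hpt 0
    have e1 : b = ((1 + a) / 2) * pt u w 1 := congrFun hpt 1
    have e2 : (1 : K) = ((1 + a) / 2) * pt u w 2 := congrFun hpt 2
    have hp2 : pt u w 2 ≠ 0 := by
      intro h0
      rw [h0, mul_zero] at e2
      exact one_ne_zero e2
    refine ⟨(u, w), hm, ?_⟩
    rw [hf]
    simp only [Prod.mk.injEq]
    constructor
    · rw [div_eq_iff hp2]
      calc pt u w 0 = 1 * pt u w 0 := (one_mul _).symm
        _ = (((1 + a) / 2) * pt u w 2) * pt u w 0 := by rw [← e2]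
        _ = (((1 + a) / 2) * pt u w 0) * pt u w 2 := by ring
        _ = a * pt u w 2 := by rw [← e0]
    · rw [div_eq_iff hp2]
      calc pt u w 1 = 1 * pt u w 1 := (one_mul _).symm
        _ = (((1 + a) / 2) * pt u w 2) * pt u w 1 := by rw [← e2]
        _ = (((1 + a) / 2) * pt u w 1) * pt u w 2 := by ring
        _ = b * pt u w 2 := by rw [← e1]
  have hfin : (PS K B T X).Finite := (hSfin.image f).subset hsub
  refine ⟨hfin, ?_⟩
  have h1 : (PS K B T X).ncard ≤ (SS K T' A).ncard :=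
    (Set.ncard_le_ncard hsub (hSfin.image f)).trans (Set.ncard_image_le hSfin)
  have h1' : ((PS K B T X).ncard : ℝ) ≤ (SS K T' A).ncard := by exact_mod_cast h1
  refine h1'.trans (hScard.trans ?_)
  have h10 : T' ≤ (1 + d) * T := by
    rw [hT']
    have h11 : (d : ℝ) * Real.log 2 ≤ d * T := by
      gcongr
      linarith
    linarith
  calc C₀ * T' ^ (r - 2) * A ^ r ≤ C₀ * ((1 + d) * T) ^ (r - 2) * (5 * Real.log X) ^ r := by
        gcongr
    _ = _ := by rw [mul_pow, mul_pow]; ring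

theorem log_pow_le (n : ℕ) (hn : 0 < n) {x : ℝ} (hx : 1 ≤ x) : Real.log x ^ n ≤ (n : ℝ) ^ n * x := by
  have hn' : (0 : ℝ) < n := by exact_mod_cast hn
  have h1 : Real.log x ≤ n * x ^ (1 / (n : ℝ)) := by
    have h2 : Real.log (x ^ (1 / (n : ℝ))) ≤ x ^ (1 / (n : ℝ)) :=
      (Real.log_le_sub_one_of_pos (by positivity)).trans (by linarith)
    rw [Real.log_rpow (by linarith)] at h2
    calc Real.log x = n * (1 / (n : ℝ) * Real.log x) := by field_simp
      _ ≤ _ := by gcongr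
  calc Real.log x ^ n ≤ (n * x ^ (1 / (n : ℝ))) ^ n := by
        have := Real.log_nonneg hx
        gcongr
    _ = (n : ℝ) ^ n * x := by
        rw [mul_pow, ← Real.rpow_natCast (x ^ (1 / (n : ℝ))) n, ← Real.rpow_mul (by linarith),
          one_div, inv_mul_cancel₀ hn'.ne', Real.rpow_one]

/-- the set of primes with a nontrivial solution of height `≤ exp (p ^ (1 / (r - 2)) / (log p) ^ (r + 2))` -/
def HS (K : Type*) [Field K] [NumberField K] (r : ℕ) (X : ℝ) : Set ℕ :=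
  {p | p.Prime ∧ (p : ℝ) ≤ X ∧ ∃ a b c : K, a ≠ 0 ∧ b ≠ 0 ∧ c ≠ 0 ∧ a ^ p + b ^ p + c ^ p = 0 ∧
    Real.log (mulHeight ![a, b, c]) ≤ (p : ℝ) ^ (1 / ((r : ℝ) - 2)) / Real.log p ^ (r + 2)}

theorem headline (hω : ¬ ∃ ω : K, IsPrimitiveRoot ω 3)
    (hr : 3 ≤ Fintype.card (InfinitePlace K)) :
    ∃ C : ℝ, 0 < C ∧ ∀ X : ℝ, 3 ≤ X →
      ((HS K (Fintype.card (InfinitePlace K)) X).ncard : ℝ) ≤ C * (X / Real.log X ^ 2) := by
  classical
  obtain ⟨C₀, hC₀, hprimes⟩ := primes_count hω hr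
  set r := Fintype.card (InfinitePlace K) with hrdef
  have hr3 : (3 : ℝ) ≤ r := by exact_mod_cast hr
  refine ⟨20 + C₀ * 2 ^ (r - 2) * (2 ^ ((r + 2) * (r - 2)) + ((r + 2 : ℕ) : ℝ) ^ (r + 2)),
    by positivity, fun X hX ↦ ?_⟩
  have hX1 : 1 ≤ X := by linarith
  have hl1 : 1 ≤ Real.log X := by
    rw [Real.le_log_iff_exp_le (by linarith)]
    exact Real.exp_one_lt_three.le.trans hX
  set L := Real.log X with hL
  have hL0 : 0 < L := by linarith
  set T₀ : ℝ := 2 ^ (r + 2) * X ^ (1 / ((r : ℝ) - 2)) / L ^ (r + 2) with hT₀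
  have hT₀0 : 0 ≤ T₀ := by positivity
  obtain ⟨hEfin, hEcard⟩ := hprimes (T₀ + 1) X (by linarith) (by linarith)
  have hsub : HS K r X ⊆ {p : ℕ | (p : ℝ) ≤ Real.sqrt X} ∪ EP K (T₀ + 1) X := by
    rintro p ⟨hp, hpX, a, b, c, ha, hb, hc, h, hH⟩
    by_cases hps : (p : ℝ) ≤ Real.sqrt X
    · exact Or.inl hps
    · right
      rw [not_le] at hps
      refine ⟨hp, hpX, a, b, c, ha, hb, hc, h, hH.trans ?_⟩
      have hlp : L / 2 ≤ Real.log p := by
        rw [hL, ← Real.log_sqrt (by linarith)]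
        exact Real.log_le_log (by positivity) hps.le
      calc (p : ℝ) ^ (1 / ((r : ℝ) - 2)) / Real.log p ^ (r + 2) ≤
          X ^ (1 / ((r : ℝ) - 2)) / (L / 2) ^ (r + 2) := by
            have h0 : 0 ≤ 1 / ((r : ℝ) - 2) := by
              apply div_nonneg (by norm_num)
              linarith
            have h1 : (p : ℝ) ^ (1 / ((r : ℝ) - 2)) ≤ X ^ (1 / ((r : ℝ) - 2)) :=
              Real.rpow_le_rpow (by positivity) hpX h0
            gcongr
        _ = T₀ := by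
            rw [hT₀, div_pow]
            field_simp
        _ ≤ T₀ + 1 := by linarith
  obtain ⟨hsfin, hscard⟩ := nat_le_ncard (Real.sqrt X) (Real.sqrt_nonneg X)
  have h1 : ((HS K r X).ncard : ℝ) ≤ (Real.sqrt X + 1) +
      C₀ * (T₀ + 1) ^ (r - 2) * L ^ r := by
    have h2 := Set.ncard_le_ncard hsub (hsfin.union hEfin)
    have h3 := Set.ncard_union_le {p : ℕ | (p : ℝ) ≤ Real.sqrt X} (EP K (T₀ + 1) X)
    have h5 : ((HS K r X).ncard : ℝ) ≤ (({p : ℕ | (p : ℝ) ≤ Real.sqrt X} : Set ℕ).ncard : ℝ) +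
        (EP K (T₀ + 1) X).ncard := by
      exact_mod_cast h2.trans h3
    linarith
  refine h1.trans ?_
  have hXL : 0 < X / L ^ 2 := by positivity
  -- the square root
  have hsq : Real.sqrt X + 1 ≤ 20 * (X / L ^ 2) := by
    have h2 : L ^ 2 ≤ 16 * Real.sqrt X := by
      have h3 := log_pow_le 2 (by norm_num) (x := Real.sqrt X) (by
        rw [Real.one_le_sqrt]; exact hX1)
      rw [Real.log_sqrt (by linarith)] at h3
      push_cast at h3
      rw [← hL] at h3
      nlinarith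
    have h4 : Real.sqrt X ≤ 16 * (X / L ^ 2) := by
      rw [← mul_div_assoc, le_div_iff₀ (by positivity)]
      calc Real.sqrt X * L ^ 2 ≤ Real.sqrt X * (16 * Real.sqrt X) := by gcongr
        _ = 16 * (Real.sqrt X * Real.sqrt X) := by ring
        _ = 16 * X := by rw [Real.mul_self_sqrt (by linarith)]
    have h5 : 1 ≤ 4 * (X / L ^ 2) := by
      rw [← mul_div_assoc, le_div_iff₀ (by positivity), one_mul]
      have h3 := log_pow_le 2 (by norm_num) (x := X) hX1
      push_cast at h3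
      rw [← hL] at h3
      linarith
    linarith
  -- the main term
  have hr2 : ((r - 2 : ℕ) : ℝ) = (r : ℝ) - 2 := by
    push_cast [Nat.cast_sub (by lia : 2 ≤ r)]
    ring
  have hr2pos : 0 < (r : ℝ) - 2 := by linarith
  have hTpow : T₀ ^ (r - 2) = 2 ^ ((r + 2) * (r - 2)) * (X / L ^ ((r + 2) * (r - 2))) := by
    rw [hT₀, div_pow, mul_pow, ← pow_mul, ← pow_mul, ← Real.rpow_natCast (X ^ (1 / ((r : ℝ) - 2))),
      ← Real.rpow_mul (by linarith), hr2, one_div, inv_mul_cancel₀ hr2pos.ne', Real.rpow_one]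
    ring
  have hadd : (T₀ + 1) ^ (r - 2) ≤ 2 ^ (r - 2) * (T₀ ^ (r - 2) + 1) := by
    rcases le_total T₀ 1 with h2 | h2
    · calc (T₀ + 1) ^ (r - 2) ≤ 2 ^ (r - 2) := by
            gcongr
            linarith
        _ ≤ 2 ^ (r - 2) * (T₀ ^ (r - 2) + 1) := by
            have : 0 ≤ T₀ ^ (r - 2) := by positivity
            nlinarith [pow_pos (by norm_num : (0 : ℝ) < 2) (r - 2)]
    · calc (T₀ + 1) ^ (r - 2) ≤ (2 * T₀) ^ (r - 2) := by
            gcongr
            linarith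
        _ = 2 ^ (r - 2) * T₀ ^ (r - 2) := mul_pow _ _ _
        _ ≤ 2 ^ (r - 2) * (T₀ ^ (r - 2) + 1) := by
            gcongr
            linarith
  have hexp : r + 2 ≤ (r + 2) * (r - 2) := by
    obtain ⟨k, hk⟩ : ∃ k, r = k + 3 := ⟨r - 3, by lia⟩
    rw [hk]
    have : k + 3 - 2 = k + 1 := by lia
    rw [this]
    nlinarith
  have hm1 : X / L ^ ((r + 2) * (r - 2)) * L ^ r ≤ X / L ^ 2 := by
    have h2 : L ^ (r + 2) ≤ L ^ ((r + 2) * (r - 2)) := pow_le_pow_right₀ hl1 hexp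
    calc X / L ^ ((r + 2) * (r - 2)) * L ^ r ≤ X / L ^ (r + 2) * L ^ r := by gcongr
      _ = X / L ^ 2 := by
        rw [pow_add]
        field_simp
  have hm2 : L ^ r ≤ ((r + 2 : ℕ) : ℝ) ^ (r + 2) * (X / L ^ 2) := by
    rw [← mul_div_assoc, le_div_iff₀ (by positivity), ← pow_add]
    exact log_pow_le (r + 2) (by lia) hX1
  have hmain : C₀ * (T₀ + 1) ^ (r - 2) * L ^ r ≤
      C₀ * 2 ^ (r - 2) * (2 ^ ((r + 2) * (r - 2)) + ((r + 2 : ℕ) : ℝ) ^ (r + 2)) * (X / L ^ 2) := by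
    calc C₀ * (T₀ + 1) ^ (r - 2) * L ^ r ≤ C₀ * (2 ^ (r - 2) * (T₀ ^ (r - 2) + 1)) * L ^ r := by
          gcongr
      _ = C₀ * 2 ^ (r - 2) * (2 ^ ((r + 2) * (r - 2)) * (X / L ^ ((r + 2) * (r - 2)) * L ^ r) +
          L ^ r) := by
          rw [hTpow]
          ring
      _ ≤ C₀ * 2 ^ (r - 2) * (2 ^ ((r + 2) * (r - 2)) * (X / L ^ 2) +
          ((r + 2 : ℕ) : ℝ) ^ (r + 2) * (X / L ^ 2)) := by
          gcongr
      _ = _ := by ring
  linarith

end Pool.Agent.H45.AFH
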