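import Pool.Agent.H45.AFH.Defs

/-!
# AFH Hgt: the height bounds all ratios of the three sums

`H = mulHeight ![a, b, c] = ∏_{v | ∞} M_v ^ mult · ∏ᶠ_{v finite} lmax v a b c`, `M_v = max (v a) (v b) (v c)`
(`NumberField.mulHeight_eq`), and in the unit case `lmax v a b c = v (a + c)` at all finite places, so by the product
formula (`NumberField.prod_abs_eq_one`) `H = ∏_{v | ∞} (M_v / v (a + c)) ^ mult`, and
`2 ^ d H = ∏ (2 M_v / v (a + c)) ^ mult`.  Every factor is `≥ 1` as `v (a + c) ≤ 2 M_v`, and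
`2 M_v / v (a + c) ≥ v (a + b) / v (a + c)`.  So `v (a + b) / v (a + c) ≤ 2 ^ d H` for every `v`.
The other ratios by symmetry (`UnitCase.rot`, `UnitCase.swap`; the height does not change under permutations of the
coordinates, `mulHeight_rot`, `mulHeight_comp_equiv`).
-/

set_option autoImplicit false

open NumberField Height

namespace Pool.Agent.H45.AFH

open Pool.Agent.H93

variable {K : Type*} [Field K] [NumberField K]

private theorem hgt_single_le {ι : Type*} [Fintype ι] (f : ι → ℝ) (h : ∀ i, 1 ≤ f i) (j : ι) :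
    f j ≤ ∏ i, f i := by
  classical
  rw [← Finset.mul_prod_erase Finset.univ f (Finset.mem_univ j)]
  have h1 : 1 ≤ ∏ i ∈ Finset.univ.erase j, f i := by
    have h2 : ∏ i ∈ Finset.univ.erase j, (1 : ℝ) ≤ ∏ i ∈ Finset.univ.erase j, f i :=
      Finset.prod_le_prod (fun i _ => zero_le_one) (fun i _ => h i)
    rw [Finset.prod_const_one] at h2
    exact h2
  exact le_mul_of_one_le_right (zero_le_one.trans (h j)) h1

theorem ratio_le {p : ℕ} {a b c : K} (g : UnitCase p a b c) (v : InfinitePlace K) :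
    v (a + b) ≤ 2 ^ Module.finrank ℚ K * mulHeight ![a, b, c] * v (a + c) := by
  classical
  have he : a + c ≠ 0 := g.hac
  have hx : (![a, b, c] : Fin 3 → K) ≠ 0 := vec3_ne_zero b c g.ha
  have hH := NumberField.mulHeight_eq hx
  have hfin : (∏ᶠ w : FinitePlace K, ⨆ i, w (![a, b, c] i)) = ∏ᶠ w : FinitePlace K, w (a + c) :=
    finprod_congr fun w => by rw [iSup_eq_lmax, (g.hU w).2.2]
  have hprod := infNorm_mul_finprod he
  have he0 := infNorm_pos he
  have hM : ∀ w : InfinitePlace K, w (a + c) ≤ 2 * ⨆ i, w (![a, b, c] i) := by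
    intro w
    have h1 := inf_add_le w a c b
    have h2 : (⨆ i, w (![a, c, b] i)) = ⨆ i, w (![a, b, c] i) := by
      rw [← (Equiv.swap (1 : Fin 3) 2).iSup_comp (g := fun i => w (![a, b, c] i))]
      congr 1
      funext i
      fin_cases i <;> rfl
    rw [h2] at h1
    exact h1
  have hpos : ∀ w : InfinitePlace K, 0 < w (a + c) := fun w => InfinitePlace.pos_iff.mpr he
  have hd : (2 : ℝ) ^ Module.finrank ℚ K = ∏ w : InfinitePlace K, (2 : ℝ) ^ w.mult := by
    rw [← InfinitePlace.sum_mult_eq, Finset.prod_pow_eq_pow_sum]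
  have hval : (2 : ℝ) ^ Module.finrank ℚ K * mulHeight ![a, b, c] =
      ∏ w : InfinitePlace K, ((2 * ⨆ i, w (![a, b, c] i)) / w (a + c)) ^ w.mult := by
    rw [hH, hfin, hd]
    have h1 : (∏ᶠ w : FinitePlace K, w (a + c)) = (infNorm (a + c))⁻¹ :=
      eq_inv_of_mul_eq_one_right hprod
    rw [h1, infNorm, ← mul_assoc, ← Finset.prod_mul_distrib, ← Finset.prod_inv_distrib,
      ← Finset.prod_mul_distrib]
    refine Finset.prod_congr rfl fun w _ => ?_
    rw [div_pow, mul_pow, div_eq_mul_inv]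
  have hone : ∀ w : InfinitePlace K, 1 ≤ (2 * ⨆ i, w (![a, b, c] i)) / w (a + c) := by
    intro w
    rw [one_le_div (hpos w)]
    exact hM w
  have hge : (2 * ⨆ i, v (![a, b, c] i)) / v (a + c) ≤
      (2 : ℝ) ^ Module.finrank ℚ K * mulHeight ![a, b, c] := by
    rw [hval]
    have h1 : (2 * ⨆ i, v (![a, b, c] i)) / v (a + c) ≤
        ((2 * ⨆ i, v (![a, b, c] i)) / v (a + c)) ^ v.mult :=
      le_self_pow₀ (hone v) InfinitePlace.mult_pos.ne'
    refine h1.trans ?_
    exact hgt_single_le (fun w : InfinitePlace K =>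
      ((2 * ⨆ i, w (![a, b, c] i)) / w (a + c)) ^ w.mult) (fun w => one_le_pow₀ (hone w)) v
  rw [div_le_iff₀ (hpos v)] at hge
  exact (inf_add_le v a b c).trans hge

theorem mulHeight_swap' (a b c : K) : mulHeight ![a, b, c] = mulHeight ![a, c, b] := by
  rw [← mulHeight_comp_equiv (Equiv.swap (1 : Fin 3) 2) ![a, b, c]]
  congr 1
  ext i
  fin_cases i <;> rfl

end Pool.Agent.H45.AFH
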