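import Pool.Agent.H45.AFH.Defs
import Pool.Agent.H93.PolyBound

/-!
# AFH Mult: at most three primes for a given point

`gap2`: if `∑ x_i ^ p = 0 = ∑ x_i ^ q`, `p < q` and not all `x_i ^ (q - p)` are equal, then
`H(x) ^ p ≤ 2 ^ d H(x) ^ (q - p)`: with `X = x ^ p`, `ξ = x ^ (q - p)` both `∑ X_i = 0` and `∑ ξ_i X_i = 0`, so `X` is
proportional to `(ξ 1 - ξ 2, ξ 2 - ξ 0, ξ 0 - ξ 1)`, whose height is at most `2 ^ d H(ξ)` (at an infinite place
`|ξ i - ξ j| ≤ 2 max |ξ|`, at a finite place `≤ max |ξ|`); `H(x ^ n) = H(x) ^ n` (`mulHeight_pow`), and the height is invariant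
under scaling (`mulHeight_smul_eq_mulHeight`).
If all `x_i ^ (q - p)` are equal then `H(x) ^ (q - p) = 1`, `H(x) = 1`.

`three`: suppose `(p / 3) ^ d ≤ H(x)` for all `p` of the set.  If `p < q < 2 p` are in the set then
`H(x) ^ (2 p - q) ≤ 2 ^ d`, but `H(x) ≥ (17 / 3) ^ d > 2 ^ d`, a contradiction (also `H(x) = 1` is impossible); if `8 p ≤ q` then by `gap`
(`Pool.Agent.H93.SumZero`) `H(x) ^ p ≤ 7000 ^ (3 d)`, but `(17 / 3) ^ 17 > 7000 ^ 3`, a contradiction.  So four elements
`p1 < p2 < p3 < p4` would satisfy `p4 ≥ 2 p3 ≥ 4 p2 ≥ 8 p1`, a contradiction.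
-/

set_option autoImplicit false

open NumberField Height

namespace Pool.Agent.H45.AFH

open Pool.Agent.H93

variable {K : Type*} [Field K] [NumberField K]

omit [NumberField K] in
private theorem mult_ip_sub_le (v : InfinitePlace K) (a b : K) : v (a - b) ≤ v a + v b := by
  rw [sub_eq_add_neg]
  refine (v.1.add_le a (-b)).trans (le_of_eq ?_)
  have : v.1 (-b) = v.1 b := v.1.map_neg b
  rw [this]
  rfl

private theorem mult_fp_sub_le (v : FinitePlace K) (a b : K) : v (a - b) ≤ max (v a) (v b) := by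
  rw [sub_eq_add_neg]
  refine (FinitePlace.add_le v a (-b)).trans (le_of_eq ?_)
  have : v (-b) = v b := v.1.map_neg b
  rw [this]

theorem gap2 {x : Fin 3 → K} (hx : ∀ i, x i ≠ 0) {p q : ℕ} (hp : 0 < p) (hq : p < q)
    (h1 : x 0 ^ p + x 1 ^ p + x 2 ^ p = 0) (h2 : x 0 ^ q + x 1 ^ q + x 2 ^ q = 0) :
    mulHeight x ^ p ≤ 2 ^ Module.finrank ℚ K * mulHeight x ^ (q - p) ∨ mulHeight x = 1 := by
  obtain ⟨n, rfl⟩ : ∃ n, q = p + n := ⟨q - p, by lia⟩
  have hn : n ≠ 0 := by lia
  rw [Nat.add_sub_cancel_left]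
  set ξ : Fin 3 → K := x ^ n with hξdef
  have hξ : ξ ≠ 0 := fun h0 ↦ pow_ne_zero n (hx 0) (congrFun h0 0)
  have hX : (x ^ p : Fin 3 → K) ≠ 0 := fun h0 ↦ pow_ne_zero p (hx 0) (congrFun h0 0)
  by_cases hc : cross (1 : Fin 3 → K) ξ = 0
  · right
    have e0 : ξ 2 - ξ 1 = 0 := by
      have := congrFun hc 0
      simpa [cross] using this
    have e1 : ξ 0 - ξ 2 = 0 := by
      have := congrFun hc 1
      simpa [cross] using this
    have e2 : ξ = ξ 0 • (1 : Fin 3 → K) := by
      ext i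
      fin_cases i
      · simp
      · simp only [Fin.mk_one, Pi.smul_apply, Pi.one_apply, smul_eq_mul, mul_one]
        linear_combination -e0 - e1
      · simp only [Fin.reduceFinMk, Pi.smul_apply, Pi.one_apply, smul_eq_mul, mul_one]
        linear_combination -e1
    have e3 : mulHeight ξ = 1 := by
      rw [e2, mulHeight_smul_eq_mulHeight _ (show ξ 0 ≠ 0 from pow_ne_zero n (hx 0)),
        mulHeight_one]
    rw [hξdef, mulHeight_pow] at e3
    exact (pow_eq_one_iff_of_nonneg (mulHeight_pos x).le hn).mp e3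
  · left
    obtain ⟨c, hc0, hcX⟩ := exists_smul_cross (a := (1 : Fin 3 → K)) (b := ξ) (y := x ^ p) hX
      (by simpa using h1)
      (by
        simp only [hξdef, Pi.pow_apply]
        rw [← pow_add, ← pow_add, ← pow_add, add_comm n p]
        exact h2) hc
    have h3 : mulHeight (cross (1 : Fin 3 → K) ξ) ≤
        2 ^ (Module.finrank ℚ K) * (mulHeight ξ * mulHeight (1 : Fin 3 → K) ^ 0) := by
      refine mulHeight_le_of_local hc hξ one_ne_zero (by norm_num) 0 ?_ ?_
      · intro v i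
        rw [pow_zero, mul_one]
        have hb : ∀ j, v (ξ j) ≤ ⨆ j, v (ξ j) := fun j ↦
          Finite.le_ciSup_of_le j le_rfl
        fin_cases i
        · have := mult_ip_sub_le v (ξ 2) (ξ 1)
          have h5 := hb 2
          have h6 := hb 1
          simp only [cross, Pi.one_apply, one_mul, Fin.zero_eta, Matrix.cons_val_zero]
          linarith
        · have := mult_ip_sub_le v (ξ 0) (ξ 2)
          have h5 := hb 2
          have h6 := hb 0
          simp only [cross, Pi.one_apply, one_mul, Fin.mk_one, Matrix.cons_val_one,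
            Matrix.cons_val_zero]
          linarith
        · have := mult_ip_sub_le v (ξ 1) (ξ 0)
          have h5 := hb 1
          have h6 := hb 0
          simp only [cross, Pi.one_apply, one_mul, Fin.reduceFinMk, Matrix.cons_val]
          linarith
      · intro v i
        rw [pow_zero, mul_one]
        have hb : ∀ j, v (ξ j) ≤ ⨆ j, v (ξ j) := fun j ↦
          Finite.le_ciSup_of_le j le_rfl
        fin_cases i
        · have := mult_fp_sub_le v (ξ 2) (ξ 1)
          simp only [cross, Pi.one_apply, one_mul, Fin.zero_eta, Matrix.cons_val_zero]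
          exact this.trans (max_le (hb 2) (hb 1))
        · have := mult_fp_sub_le v (ξ 0) (ξ 2)
          simp only [cross, Pi.one_apply, one_mul, Fin.mk_one, Matrix.cons_val_one,
            Matrix.cons_val_zero]
          exact this.trans (max_le (hb 0) (hb 2))
        · have := mult_fp_sub_le v (ξ 1) (ξ 0)
          simp only [cross, Pi.one_apply, one_mul, Fin.reduceFinMk, Matrix.cons_val]
          exact this.trans (max_le (hb 1) (hb 0))
    rw [pow_zero, mul_one] at h3
    rw [← mulHeight_pow, ← mulHeight_pow]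
    rw [hcX, mulHeight_smul_eq_mulHeight _ hc0]
    exact h3

theorem three {x : Fin 3 → K} (hx : ∀ i, x i ≠ 0) :
    ({p : ℕ | 17 ≤ p ∧ x 0 ^ p + x 1 ^ p + x 2 ^ p = 0 ∧
      (p : ℝ) ^ Module.finrank ℚ K ≤ 3 ^ Module.finrank ℚ K * mulHeight x} : Set ℕ).encard ≤ 3 := by
  set d := Module.finrank ℚ K with hd
  set S : Set ℕ := {p : ℕ | 17 ≤ p ∧ x 0 ^ p + x 1 ^ p + x 2 ^ p = 0 ∧
      (p : ℝ) ^ d ≤ 3 ^ d * mulHeight x} with hS
  have hd0 : 0 < d := Module.finrank_pos
  have hbig : ∀ p ∈ S, ((17 : ℝ) / 3) ^ d ≤ mulHeight x := by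
    rintro p ⟨hp17, -, hp⟩
    have h1 : (17 : ℝ) ^ d ≤ (p : ℝ) ^ d := by
      refine pow_le_pow_left₀ (by norm_num) ?_ d
      exact_mod_cast hp17
    rw [div_pow, div_le_iff₀ (by positivity)]
    linarith
  have hfive : (1 : ℝ) < ((17 : ℝ) / 3) ^ d := one_lt_pow₀ (by norm_num) hd0.ne'
  -- consecutive elements differ by a factor at least two
  have hdouble : ∀ p ∈ S, ∀ q ∈ S, p < q → 2 * p ≤ q := by
    intro p hp q hq hpq
    by_contra hcon
    push Not at hcon
    have hH := hbig p hp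
    have hH1 : 1 < mulHeight x := hfive.trans_le hH
    rcases gap2 hx (by have := hp.1; lia) hpq hp.2.1 hq.2.1 with h | h
    · obtain ⟨m, hm⟩ : ∃ m, p = (q - p) + (m + 1) := ⟨p - (q - p) - 1, by lia⟩
      have h3 : mulHeight x ^ p = mulHeight x ^ (m + 1) * mulHeight x ^ (q - p) := by
        conv_lhs => rw [hm]
        rw [pow_add]
        ring
      rw [h3] at h
      have h4 : mulHeight x ^ (m + 1) ≤ 2 ^ d :=
        le_of_mul_le_mul_right h (pow_pos (mulHeight_pos x) _)
      have h5 : mulHeight x ≤ mulHeight x ^ (m + 1) := le_self_pow₀ hH1.le (by lia)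
      have h6 : (2 : ℝ) ^ d < ((17 : ℝ) / 3) ^ d :=
        pow_lt_pow_left₀ (by norm_num) (by norm_num) hd0.ne'
      linarith
    · linarith
  have height8 : ∀ p ∈ S, ∀ q ∈ S, ¬ 8 * p ≤ q := by
    intro p hp q hq h8
    have hH := hbig p hp
    have h1 := gap hx (by have := hp.1; lia) h8 hp.2.1 hq.2.1
    have h2 : (((17 : ℝ) / 3) ^ d) ^ 17 ≤ mulHeight x ^ p := by
      calc (((17 : ℝ) / 3) ^ d) ^ 17 ≤ mulHeight x ^ 17 :=
            pow_le_pow_left₀ (by positivity) hH 17
        _ ≤ mulHeight x ^ p := pow_le_pow_right₀ (hfive.trans_le hH).le hp.1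
    have h3 : ((7000 : ℝ) ^ 3) ^ d < (((17 : ℝ) / 3) ^ 17) ^ d :=
      pow_lt_pow_left₀ (by norm_num) (by norm_num) hd0.ne'
    have h4 : (((17 : ℝ) / 3) ^ d) ^ 17 = (((17 : ℝ) / 3) ^ 17) ^ d := by
      rw [← pow_mul, ← pow_mul, mul_comm]
    have h5 : (7000 : ℝ) ^ (3 * d) = ((7000 : ℝ) ^ 3) ^ d := by rw [pow_mul]
    rw [h4] at h2
    rw [← hd, h5] at h1
    exact absurd (h3.trans_le (h2.trans h1)) (lt_irrefl _)
  by_contra hcon
  push Not at hcon
  have h4 : (4 : ℕ∞) ≤ S.encard := by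
    have := Order.add_one_le_of_lt hcon
    exact le_trans (by norm_num) this
  obtain ⟨T, hTS, hT⟩ := Set.exists_subset_encard_eq h4
  have hTfin : T.Finite := Set.finite_of_encard_eq_coe (k := 4) (by rw [hT]; rfl)
  have hcard : hTfin.toFinset.card = 4 := by
    have := hTfin.encard_eq_coe_toFinset_card
    rw [hT] at this
    exact_mod_cast this.symm
  set o := hTfin.toFinset.orderEmbOfFin hcard with ho
  have hmem : ∀ i, o i ∈ S := fun i ↦ hTS (by
    have := Finset.orderEmbOfFin_mem hTfin.toFinset hcard i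
    exact (hTfin.mem_toFinset).mp this)
  have h01 := hdouble (o 0) (hmem 0) (o 1) (hmem 1) (o.strictMono (by decide))
  have h12 := hdouble (o 1) (hmem 1) (o 2) (hmem 2) (o.strictMono (by decide))
  have h23 := hdouble (o 2) (hmem 2) (o 3) (hmem 3) (o.strictMono (by decide))
  exact height8 (o 0) (hmem 0) (o 3) (hmem 3) (by lia)

end Pool.Agent.H45.AFH
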