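import Pool.Agent.H45.AFH.Defs

/-!
# AFH Plc: the infinite places

`UnitCase p a b c` (from `Pool.Agent.H93.RankOne`) is symmetric in `a, b, c` (`UnitCase.rot`, `UnitCase.swap`).

`window`: if `a + b` is the smallest of the three sums at `v` then the other two are within a factor `10 p`.
If `10 v (a + c) ≤ v (b + c)` use `arch_place`; if not, `v (b + c) ≤ 10 v (a + c) ≤ 10 p v (a + c)`.  The other inequality in the
same way with `a` and `b` exchanged (`arch_place` for `(b, a, c)`).

`not_const`: it is impossible that `a + b` is the smallest sum at ALL infinite places: by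
`infNorm_eq_of_finite_eq` the three sums have the same `infNorm` (their values at all finite places are equal, `hU`); if
`v (a + b) ≤ v (b + c)` for all `v` and the products `∏ v ( ) ^ mult` are equal (and positive), then `v (a + b) = v (b + c)` for all
`v`; in the same way `= v (a + c)`.  So `v (a + b + c) ≤ 3/2 v (a + c)` for all `v` (`sum3_le`), and
`p ^ d infNorm (a + c) ≤ infNorm (a + b + c) ≤ (3/2) ^ d infNorm (a + c)` by `infNorm_sum_ge` (see `one_place_contra` for the
case of one place), so `p ≤ 3/2`, a contradiction (`d ≥ 1`, `∑ mult = d`).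
-/

set_option autoImplicit false

open NumberField Height

namespace Pool.Agent.H45.AFH

open Pool.Agent.H93

variable {K : Type*} [Field K] [NumberField K]

theorem window {p : ℕ} (hp : Odd p) {a b c : K} (g : UnitCase p a b c) (v : InfinitePlace K)
    (h1 : v (a + b) ≤ v (b + c)) (h2 : v (a + b) ≤ v (a + c)) :
    v (b + c) ≤ 10 * p * v (a + c) ∧ v (a + c) ≤ 10 * p * v (b + c) := by
  have hp1 : (1 : ℝ) ≤ p := by exact_mod_cast hp.pos
  have hac0 : 0 ≤ v (a + c) := apply_nonneg v _
  have hbc0 : 0 ≤ v (b + c) := apply_nonneg v _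
  constructor
  · rcases le_total (10 * v (a + c)) (v (b + c)) with h10 | h10
    · exact (arch_place v hp g.hab g.h h2 h10).1
    · nlinarith
  · rcases le_total (10 * v (b + c)) (v (a + c)) with h10 | h10
    · have e1 : b + a = a + b := add_comm _ _
      exact (arch_place v hp (a := b) (b := a) (c := c) (by rw [e1]; exact g.hab)
        (by linear_combination g.h) (by rw [e1]; exact h1) h10).1
    · nlinarith

theorem not_const {p : ℕ} (hp : p.Prime) (hdisc : ¬ (p : ℤ) ∣ discr K) {a b c : K}
    (g : UnitCase p a b c)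
    (h : ∀ v : InfinitePlace K, v (a + b) ≤ v (b + c) ∧ v (a + b) ≤ v (a + c)) : False := by
  classical
  have E1 := infNorm_eq_of_finite_eq g.hab g.hac (fun v ↦ (g.hU v).1.trans (g.hU v).2.2.symm)
  have E2 := infNorm_eq_of_finite_eq g.hab g.hbc (fun v ↦ (g.hU v).1.trans (g.hU v).2.1.symm)
  have pos : ∀ (v : InfinitePlace K) {x : K}, x ≠ 0 → 0 < v x := fun v x hx ↦
    InfinitePlace.pos_iff.mpr hx
  have key : ∀ {y : K}, y ≠ 0 → infNorm (a + b) = infNorm y →
      (∀ v : InfinitePlace K, v (a + b) ≤ v y) → ∀ v : InfinitePlace K, v y ≤ v (a + b) := by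
    intro y hy hE hle v
    by_contra hcon
    push Not at hcon
    have hlt : (∏ w : InfinitePlace K, w (a + b) ^ w.mult) <
        ∏ w : InfinitePlace K, w y ^ w.mult := by
      refine Finset.prod_lt_prod (fun w _ ↦ pow_pos (pos w g.hab) _)
        (fun w _ ↦ pow_le_pow_left₀ (pos w g.hab).le (hle w) _) ⟨v, Finset.mem_univ v, ?_⟩
      exact pow_lt_pow_left₀ hcon (pos v g.hab).le InfinitePlace.mult_pos.ne'
    exact absurd hE hlt.ne
  have hac := key g.hac E1 (fun v ↦ (h v).2)
  have hbc := key g.hbc E2 (fun v ↦ (h v).1)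
  have hsum : ∀ v : InfinitePlace K, v (a + b + c) ≤ 3 / 2 * v (a + c) := fun v ↦
    sum3_le v (h v).2 ((hbc v).trans (h v).2) le_rfl
  have hs := infNorm_sum_ge hp hdisc g.ha g.h g.hsum g.hac (fun v ↦ (g.hU v).2.2)
  have hup : infNorm (a + b + c) ≤
      (3 / 2 : ℝ) ^ Module.finrank ℚ K * infNorm (a + c) := by
    have h1 : infNorm (a + b + c) ≤
        ∏ w : InfinitePlace K, ((3 / 2 : ℝ) ^ w.mult * w (a + c) ^ w.mult) := by
      refine Finset.prod_le_prod (fun w _ ↦ pow_nonneg (apply_nonneg w _) _) fun w _ ↦ ?_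
      rw [← mul_pow]
      exact pow_le_pow_left₀ (apply_nonneg w _) (hsum w) _
    rw [Finset.prod_mul_distrib, Finset.prod_pow_eq_pow_sum, InfinitePlace.sum_mult_eq] at h1
    exact h1
  have hpos : 0 < infNorm (a + c) := infNorm_pos g.hac
  have h3 : (p : ℝ) ^ Module.finrank ℚ K ≤ (3 / 2 : ℝ) ^ Module.finrank ℚ K :=
    le_of_mul_le_mul_right (hs.trans hup) hpos
  have hd : Module.finrank ℚ K ≠ 0 := Module.finrank_pos.ne'
  have h4 : (p : ℝ) ≤ 3 / 2 := (pow_le_pow_iff_left₀ (by positivity) (by norm_num) hd).mp h3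
  have h5 : (2 : ℝ) ≤ p := by exact_mod_cast hp.two_le
  linarith

end Pool.Agent.H45.AFH
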