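import Pool.Agent.H93.ThreeUnits
import Pool.Agent.H45.AFH.Cnt
import Pool.Agent.H45.AFH.Plc
import Pool.Agent.H45.AFH.Hgt
import Pool.Agent.H45.AFH.Mult

/-!
# AFH Main: assembly
-/

set_option autoImplicit false

open NumberField Height

namespace Pool.Agent.H45.AFH

open Pool.Agent.H93

variable {K : Type*} [Field K] [NumberField K]

/-- the point whose pairwise sums are proportional to `u, w, 1` -/
def pt (u w : (𝓞 K)ˣ) : Fin 3 → K :=
  ![1 + ((u : 𝓞 K) : K) - ((w : 𝓞 K) : K), ((u : 𝓞 K) : K) + ((w : 𝓞 K) : K) - 1,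
    1 + ((w : 𝓞 K) : K) - ((u : 𝓞 K) : K)]

theorem abs_log_div_le {x y M : ℝ} (hx : 0 < x) (hy : 0 < y)
    (h1 : x ≤ M * y) (h2 : y ≤ M * x) : |Real.log (x / y)| ≤ Real.log M := by
  rw [abs_le]
  constructor
  · rw [neg_le, ← Real.log_inv, inv_div]
    exact Real.log_le_log (by positivity) ((div_le_iff₀ hx).mpr h2)
  · exact Real.log_le_log (by positivity) ((div_le_iff₀ hy).mpr h1)

/-- all ratios of sums are bounded by `2 ^ d H` -/
theorem ratios {p : ℕ} {a b c : K} (g : UnitCase p a b c) (v : InfinitePlace K) (M : ℝ)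
    (hM : 2 ^ Module.finrank ℚ K * mulHeight ![a, b, c] = M) :
    v (a + b) ≤ M * v (c + a) ∧ v (c + a) ≤ M * v (a + b) ∧ v (b + c) ≤ M * v (c + a) ∧
      v (c + a) ≤ M * v (b + c) := by
  have e1 : mulHeight ![b, c, a] = mulHeight ![a, b, c] := (mulHeight_rot a b c).symm
  have e2 : mulHeight ![c, a, b] = mulHeight ![a, b, c] := by rw [mulHeight_rot c a b]
  have e3 : mulHeight ![a, c, b] = mulHeight ![a, b, c] := (mulHeight_swap' a b c).symm
  have e4 : mulHeight ![c, b, a] = mulHeight ![a, b, c] := by rw [← mulHeight_swap' c a b, e2]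
  refine ⟨?_, ?_, ?_, ?_⟩
  · have := ratio_le g v
    rwa [hM, add_comm a c] at this
  · have := ratio_le g.swap v
    rwa [e3, hM, add_comm a c] at this
  · have := ratio_le g.rot.rot.swap v
    rwa [e4, hM, add_comm c b] at this
  · have := ratio_le g.rot.rot v
    rwa [e2, hM, add_comm c b] at this

/-- the pair of units of a point in the unit case -/
theorem unit_pair {p : ℕ} (hp : p.Prime) (hodd : Odd p) (hdisc : ¬ (p : ℤ) ∣ discr K) {a b c : K}
    (g : UnitCase p a b c) {T X : ℝ} (hT : Real.log (mulHeight ![a, b, c]) ≤ T) (hX : (p : ℝ) ≤ X) :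
    ∃ u w : (𝓞 K)ˣ, a + b = (c + a) * ((u : 𝓞 K) : K) ∧ b + c = (c + a) * ((w : 𝓞 K) : K) ∧
      (u, w) ∈ SS K (T + Module.finrank ℚ K * Real.log 2) (Real.log (10 * X)) := by
  classical
  obtain ⟨u, w, s, hu, hw, -, -⟩ := exists_units_of_local_eq g.ha (fun v ↦ by
    refine ⟨(g.hU v).1, (g.hU v).2.1, ?_⟩
    rw [add_comm c a]
    exact (g.hU v).2.2)
  refine ⟨u, w, hu, hw, ?_⟩
  have hca : c + a ≠ 0 := by
    rw [add_comm]
    exact g.hac
  have pos : ∀ (v : InfinitePlace K) {x : K}, x ≠ 0 → 0 < v x := fun v x hx ↦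
    InfinitePlace.pos_iff.mpr hx
  have hu' : ((u : 𝓞 K) : K) = (a + b) / (c + a) := by
    rw [hu]
    field_simp
  have hw' : ((w : 𝓞 K) : K) = (b + c) / (c + a) := by
    rw [hw]
    field_simp
  have lu : ∀ v : InfinitePlace K, lg v u = Real.log (v (a + b) / v (c + a)) := by
    intro v
    rw [lg, hu', map_div₀]
  have lw : ∀ v : InfinitePlace K, lg v w = Real.log (v (b + c) / v (c + a)) := by
    intro v
    rw [lg, hw', map_div₀]
  have luw : ∀ v : InfinitePlace K, lg v u - lg v w = Real.log (v (a + b) / v (b + c)) := by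
    intro v
    rw [lu, lw, ← Real.log_div (div_ne_zero (pos v g.hab).ne' (pos v hca).ne')
      (div_ne_zero (pos v g.hbc).ne' (pos v hca).ne')]
    congr 1
    have h1 := (pos v g.hbc).ne'
    have h2 := (pos v hca).ne'
    field_simp
  have hH : 0 < mulHeight ![a, b, c] := mulHeight_pos _
  have hM : Real.log (2 ^ Module.finrank ℚ K * mulHeight ![a, b, c]) ≤
      T + Module.finrank ℚ K * Real.log 2 := by
    rw [Real.log_mul (by positivity) hH.ne', Real.log_pow]
    linarith
  have p0 : (0 : ℝ) < p := by exact_mod_cast hp.pos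
  have hA : Real.log (10 * p) ≤ Real.log (10 * X) := Real.log_le_log (by positivity) (by linarith)
  refine ⟨fun v ↦ ⟨?_, ?_⟩, ?_⟩
  · rw [lu]
    obtain ⟨q1, q2, -, -⟩ := ratios g v _ rfl
    exact (abs_log_div_le (pos v g.hab) (pos v hca) q1 q2).trans hM
  · rw [lw]
    obtain ⟨-, -, q1, q2⟩ := ratios g v _ rfl
    exact (abs_log_div_le (pos v g.hbc) (pos v hca) q1 q2).trans hM
  · set φ : InfinitePlace K → Fin 3 := fun v ↦
      if v (a + b) ≤ v (b + c) ∧ v (a + b) ≤ v (a + c) then 0 else
        if v (b + c) ≤ v (c + a) ∧ v (b + c) ≤ v (b + a) then 1 else 2 with hφ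
    have F0 : ∀ v, φ v = 0 → v (a + b) ≤ v (b + c) ∧ v (a + b) ≤ v (a + c) := by
      intro v hv
      by_contra hcon
      simp only [hφ] at hv
      rw [if_neg hcon] at hv
      split_ifs at hv
      · exact absurd hv (by decide)
      · exact absurd hv (by decide)
    have F1 : ∀ v, φ v = 1 → v (b + c) ≤ v (c + a) ∧ v (b + c) ≤ v (b + a) := by
      intro v hv
      by_contra hcon
      simp only [hφ] at hv
      split_ifs at hv
      · exact absurd hv (by decide)
      · exact absurd hv (by decide)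
    have F2 : ∀ v, φ v = 2 → v (c + a) ≤ v (a + b) ∧ v (c + a) ≤ v (c + b) := by
      intro v hv
      simp only [hφ] at hv
      split_ifs at hv with h1 h2
      · exact absurd hv (by decide)
      · exact absurd hv (by decide)
      · rw [add_comm a c] at h1
        rw [add_comm b a] at h2
        rw [add_comm c b]
        rcases le_total (v (a + b)) (v (b + c)) with h3 | h3
        · have h4 : v (c + a) ≤ v (a + b) := by
            by_contra hcon
            exact h1 ⟨h3, (not_le.mp hcon).le⟩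
          exact ⟨h4, h4.trans h3⟩
        · have h4 : v (c + a) ≤ v (b + c) := by
            by_contra hcon
            exact h2 ⟨(not_le.mp hcon).le, h3⟩
          exact ⟨h4.trans h3, h4⟩
    refine ⟨φ, ?_, ?_⟩
    · by_contra hcon
      push Not at hcon
      obtain ⟨v₀⟩ : Nonempty (InfinitePlace K) := inferInstance
      have hc : ∀ v, φ v = φ v₀ := fun v ↦ hcon v v₀
      have h3 : φ v₀ = 0 ∨ φ v₀ = 1 ∨ φ v₀ = 2 := by
        generalize φ v₀ = i
        fin_cases i <;> simp
      rcases h3 with h3 | h3 | h3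
      · exact not_const hp hdisc g (fun v ↦ F0 v ((hc v).trans h3))
      · exact not_const hp hdisc g.rot (fun v ↦ F1 v ((hc v).trans h3))
      · exact not_const hp hdisc g.rot.rot (fun v ↦ F2 v ((hc v).trans h3))
    · intro v
      have h3 : φ v = 0 ∨ φ v = 1 ∨ φ v = 2 := by
        generalize φ v = i
        fin_cases i <;> simp
      rcases h3 with h3 | h3 | h3
      · rw [h3, fm, if_pos rfl, lw]
        obtain ⟨q1, q2⟩ := window hodd g v (F0 v h3).1 (F0 v h3).2
        rw [add_comm a c] at q1 q2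
        exact (abs_log_div_le (pos v g.hbc) (pos v hca) q1 q2).trans hA
      · rw [h3, fm, if_neg (by decide), if_pos rfl, lu]
        obtain ⟨q1, q2⟩ := window hodd g.rot v (F1 v h3).1 (F1 v h3).2
        rw [add_comm b a] at q1 q2
        exact (abs_log_div_le (pos v g.hab) (pos v hca) q2 q1).trans hA
      · rw [h3, fm, if_neg (by decide), if_neg (by decide), luw]
        obtain ⟨q1, q2⟩ := window hodd g.rot.rot v (F2 v h3).1 (F2 v h3).2
        rw [add_comm c b] at q1 q2
        exact (abs_log_div_le (pos v g.hab) (pos v g.hbc) q1 q2).trans hA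

/-- the point is recovered from the units -/
theorem eq_smul_pt {a b c : K} {u w : (𝓞 K)ˣ} (hu : a + b = (c + a) * ((u : 𝓞 K) : K))
    (hw : b + c = (c + a) * ((w : 𝓞 K) : K)) :
    ![a, b, c] = ((c + a) / 2) • pt u w := by
  ext i
  fin_cases i
  · simp only [pt, Pi.smul_apply, smul_eq_mul]
    simp
    linear_combination (1 / 2 : K) * hu - (1 / 2 : K) * hw
  · simp only [pt, Pi.smul_apply, smul_eq_mul]
    simp
    linear_combination (1 / 2 : K) * hu + (1 / 2 : K) * hw
  · simp only [pt, Pi.smul_apply, smul_eq_mul]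
    simp
    linear_combination - (1 / 2 : K) * hu + (1 / 2 : K) * hw

end Pool.Agent.H45.AFH
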